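import Pool.Agent.Vor.Main

set_option autoImplicit false

namespace Pool.Agent.Vor

open MeasureTheory Set
open scoped ENNReal NNReal

/-- The tent density of radius `s` around `q`. -/
noncomputable def tent (s : ℝ) (q x : E) : ℝ≥0 :=
  Real.toNNReal (3 / (Real.pi * s ^ 4) * (s - ‖x - q‖))

theorem tent_lip {s : ℝ} (hs : 0 < s) (q : E) :
    LipschitzWith (Real.toNNReal (3 / (Real.pi * s ^ 4))) (tent s q) := by
  have hc : 0 ≤ 3 / (Real.pi * s ^ 4) := by positivity
  have h1 : LipschitzWith (Real.toNNReal (3 / (Real.pi * s ^ 4)))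
      (fun x : E => 3 / (Real.pi * s ^ 4) * (s - ‖x - q‖)) := by
    refine LipschitzWith.of_dist_le_mul fun a b => ?_
    rw [Real.dist_eq, Real.coe_toNNReal _ hc, ← mul_sub, abs_mul, abs_of_nonneg hc]
    apply mul_le_mul_of_nonneg_left _ hc
    have e : s - ‖a - q‖ - (s - ‖b - q‖) = ‖b - q‖ - ‖a - q‖ := by ring
    rw [e]
    have := abs_norm_sub_norm_le (b - q) (a - q)
    rw [sub_sub_sub_cancel_right] at this
    rwa [dist_comm, dist_eq_norm]
  have := Real.lipschitzWith_toNNReal.comp h1
  rw [one_mul] at this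
  exact this

theorem tent_zero {s : ℝ} (hs : 0 < s) {q : E} (hq : ‖q‖ + s ≤ 1) (w : E) (hw : 1 < ‖w‖) :
    tent s q w = 0 := by
  unfold tent
  apply Real.toNNReal_of_nonpos
  have hc : 0 ≤ 3 / (Real.pi * s ^ 4) := by positivity
  apply mul_nonpos_of_nonneg_of_nonpos hc
  have := norm_sub_norm_le w q
  linarith

theorem tent_integral {s : ℝ} (hs : 0 < s) :
    ∫ x : E, max 0 (3 / (Real.pi * s ^ 4) * (s - ‖x‖)) = 1 := by
  set c : ℝ := 3 / (Real.pi * s ^ 4) with hc
  have hc0 : 0 ≤ c := by positivity
  rw [integral_fun_norm_addHaar (μ := (volume : Measure E)) (fun r => max 0 (c * (s - r)))]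
  have hv : (volume : Measure E).real (Metric.ball 0 1) = 4 / 3 * Real.pi := by
    rw [Measure.real, EuclideanSpace.volume_ball_fin_three]
    simp only [ENNReal.ofReal_one, one_pow, one_mul]
    rw [ENNReal.toReal_ofReal (by positivity)]
    ring
  have hI : ∫ y in Ioi (0 : ℝ), y ^ (Module.finrank ℝ E - 1) • max 0 (c * (s - y)) =
      c * (s ^ 4 / 12) := by
    have hd : Module.finrank ℝ E - 1 = 2 := by simp
    rw [hd, setIntegral_eq_of_subset_of_forall_sdiff_eq_zero (s := Ioc 0 s) measurableSet_Ioi
      Ioc_subset_Ioi_self]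
    · rw [← intervalIntegral.integral_of_le hs.le]
      have : ∫ y in (0 : ℝ)..s, y ^ 2 • max 0 (c * (s - y)) =
          ∫ y in (0 : ℝ)..s, (c * s) * y ^ 2 - c * y ^ 3 := by
        apply intervalIntegral.integral_congr
        intro y hy
        rw [uIcc_of_le hs.le] at hy
        have : 0 ≤ c * (s - y) := mul_nonneg hc0 (sub_nonneg.2 hy.2)
        simp only [smul_eq_mul]
        rw [max_eq_right this]
        ring
      rw [this, intervalIntegral.integral_sub
          (Continuous.intervalIntegrable (by fun_prop) _ _)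
          (Continuous.intervalIntegrable (by fun_prop) _ _),
        intervalIntegral.integral_const_mul, intervalIntegral.integral_const_mul,
        integral_pow, integral_pow]
      norm_num
      ring
    · intro y hy
      have hy0 : 0 < y := hy.1
      have hys : s < y := by
        by_contra h
        exact hy.2 ⟨hy0, not_lt.1 h⟩
      rw [max_eq_left, smul_zero]
      exact mul_nonpos_of_nonneg_of_nonpos hc0 (by linarith)
  rw [hI, hv]
  simp only [finrank_euclideanSpace, Fintype.card_fin, smul_eq_mul, nsmul_eq_mul]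
  rw [hc]
  have := Real.pi_ne_zero
  field_simp
  norm_num

theorem tent_int {s : ℝ} (hs : 0 < s) (q : E) : ∫⁻ w, (tent s q w : ℝ≥0∞) = 1 := by
  have h1 : ∫⁻ w, (tent s q w : ℝ≥0∞) = ∫⁻ w, (tent s 0 w : ℝ≥0∞) := by
    rw [← lintegral_sub_right_eq_self (fun w => (tent s 0 w : ℝ≥0∞)) q]
    simp only [tent, sub_zero]
  have hi : Integrable (fun x : E => max 0 (3 / (Real.pi * s ^ 4) * (s - ‖x‖))) := by
    apply Continuous.integrable_of_hasCompactSupport (by fun_prop)
    apply HasCompactSupport.intro (isCompact_closedBall (0 : E) s)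
    intro x hx
    rw [Metric.mem_closedBall, dist_zero_right, not_le] at hx
    apply max_eq_left
    have hc : 0 ≤ 3 / (Real.pi * s ^ 4) := by positivity
    exact mul_nonpos_of_nonneg_of_nonpos hc (by linarith)
  rw [h1, ← ENNReal.ofReal_one, ← tent_integral hs,
    ofReal_integral_eq_lintegral_ofReal hi (Filter.Eventually.of_forall fun x => le_max_left _ _)]
  refine lintegral_congr fun x => ?_
  unfold tent
  rw [sub_zero, ENNReal.ofReal]
  congr 1
  rcases le_total 0 (3 / (Real.pi * s ^ 4) * (s - ‖x‖)) with h | h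
  · rw [max_eq_right h]
  · rw [max_eq_left h, Real.toNNReal_of_nonpos h, Real.toNNReal_zero]

end Pool.Agent.Vor
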