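import Mathlib

set_option autoImplicit false

namespace Pool.Agent.Vor

open MeasureTheory Set
open scoped ENNReal NNReal

-- BEGIN sq1
/-- A nonnegative sequence with increments at most `c` has a square root that is Lipschitz. -/
theorem seq_sq {c : ℝ} (hc : 0 ≤ c) (ρ : ℕ → ℝ) (h0 : ∀ j, 0 ≤ ρ j) (h1 : ρ 0 ≤ c)
    (h2 : ∀ j, ρ (j + 1) ≤ ρ j + c) (j : ℕ) :
    ρ j ^ 2 ≤ 2 * c * ∑ k ∈ Finset.range (j + 1), ρ k := by
  induction j with
  | zero =>
    simp only [zero_add, Finset.range_one, Finset.sum_singleton]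
    have a := h0 0
    nlinarith [mul_nonneg hc a, mul_nonneg a (sub_nonneg.2 h1)]
  | succ j ih =>
    rw [Finset.sum_range_succ]
    have a := h0 j
    have b := h0 (j + 1)
    have hs : 0 ≤ ∑ k ∈ Finset.range (j + 1), ρ k := Finset.sum_nonneg fun k _ => h0 k
    rcases le_total (ρ (j + 1)) (ρ j) with h | h
    · have : ρ (j + 1) ^ 2 ≤ ρ j ^ 2 := by nlinarith
      nlinarith [mul_nonneg hc b]
    · have h3 := h2 j
      have e : ρ (j + 1) ^ 2 - ρ j ^ 2 = (ρ (j + 1) - ρ j) * (ρ (j + 1) + ρ j) := by ring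
      have f : (ρ (j + 1) - ρ j) * (ρ (j + 1) + ρ j) ≤ c * (2 * ρ (j + 1)) := by
        apply mul_le_mul (by linarith) (by linarith) (by linarith) hc
      nlinarith
-- END sq1

-- BEGIN sq2
/-- `(∑_i ρ i j)² ≤ n ∑_i ρ i j² ≤ n·(2/n)·∑_i ∑_k` (`sq_sum_le_card_mul_sum_sq`, row sq1 with `c = 1/n`), then `Real.le_sqrt`. -/
theorem seq_sum {n : ℕ} (hn : 0 < n) (ρ : Fin n → ℕ → ℝ) (h0 : ∀ i j, 0 ≤ ρ i j)
    (h1 : ∀ i, ρ i 0 ≤ 1 / n) (h2 : ∀ i j, ρ i (j + 1) ≤ ρ i j + 1 / n) (j : ℕ) :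
    ∑ i, ρ i j ≤ Real.sqrt (2 * ∑ i, ∑ k ∈ Finset.range (j + 1), ρ i k) := by
  have hn0 : (0 : ℝ) < n := by exact_mod_cast hn
  have h3 : ∀ i, ρ i j ^ 2 ≤ 2 * (1 / n) * ∑ k ∈ Finset.range (j + 1), ρ i k := fun i =>
    seq_sq (by positivity) (ρ i) (h0 i) (h1 i) (h2 i) j
  have h4 : (∑ i, ρ i j) ^ 2 ≤ n * ∑ i, ρ i j ^ 2 := by
    have h5 := sq_sum_le_card_mul_sum_sq (s := Finset.univ) (f := fun i => ρ i j)
    rwa [Finset.card_univ, Fintype.card_fin] at h5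
  refine Real.le_sqrt_of_sq_le ?_
  calc (∑ i, ρ i j) ^ 2 ≤ n * ∑ i, ρ i j ^ 2 := h4
    _ ≤ n * ∑ i, 2 * (1 / n) * ∑ k ∈ Finset.range (j + 1), ρ i k :=
        mul_le_mul_of_nonneg_left (Finset.sum_le_sum fun i _ => h3 i) hn0.le
    _ = 2 * ∑ i, ∑ k ∈ Finset.range (j + 1), ρ i k := by
        rw [← Finset.mul_sum, ← mul_assoc]
        congr 1
        field_simp
-- END sq2

-- BEGIN sq3
/-- The square root grows by at most `√2`. -/
theorem sqrt_step {a b : ℝ} (ha : 0 ≤ a) (hab : a ≤ b) (h : b - a ≤ Real.sqrt (2 * b)) :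
    Real.sqrt b ≤ Real.sqrt a + Real.sqrt 2 := by
  have hb : 0 ≤ b := ha.trans hab
  rw [Real.sqrt_mul (by norm_num)] at h
  have x0 := Real.sqrt_nonneg a
  have y0 := Real.sqrt_nonneg b
  have s0 : 0 < Real.sqrt 2 := Real.sqrt_pos.2 (by norm_num)
  have x2 := Real.sq_sqrt ha
  have y2 := Real.sq_sqrt hb
  by_contra hc
  push Not at hc
  nlinarith
-- END sq3

-- BEGIN sq4
/-- By row sq3 `√A_(j+3) ≤ √A_j + 3√2`, so `A_(j+3) - A_j ≤ 6√2 √A_j + 18 ≤ A_j/2 + 36 + 18`; so the exponent is `≤ -A_j/2 + 54`; and `A_(j+1) ≤ 2A_j + 4`, so it is `≤ -A_(j+1)/4 + 55`. Finally `(A_(j+1) - A_j) exp(-A_(j+1)/4) ≤ 4 (exp(-A_j/4) - exp(-A_(j+1)/4))` (`Real.add_one_le_exp`) and the sum telescopes. -/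
theorem tele {A : ℕ → ℝ} (h0 : A 0 = 0) (hA : Monotone A)
    (h : ∀ j, A (j + 1) - A j ≤ Real.sqrt (2 * A (j + 1))) (J : ℕ) :
    ∑ j ∈ Finset.range J, (A (j + 1) - A j) * Real.exp (-A j + (A (j + 3) - A j)) ≤ 4 * Real.exp 55 := by
  have hnn : ∀ j, 0 ≤ A j := fun j => by
    rw [← h0]
    exact hA (Nat.zero_le j)
  have hs : ∀ j, Real.sqrt (A (j + 1)) ≤ Real.sqrt (A j) + Real.sqrt 2 := fun j =>
    sqrt_step (hnn j) (hA (Nat.le_succ j)) (h j)
  have hexp : ∀ j, -A j + (A (j + 3) - A j) ≤ -(A (j + 1)) / 4 + 55 := by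
    intro j
    have e1 := hs j
    have e2 := hs (j + 1)
    have e3 := hs (j + 2)
    have q0 : Real.sqrt (A j) ^ 2 = A j := Real.sq_sqrt (hnn j)
    have q1 : Real.sqrt (A (j + 1)) ^ 2 = A (j + 1) := Real.sq_sqrt (hnn _)
    have q3 : Real.sqrt (A (j + 3)) ^ 2 = A (j + 3) := Real.sq_sqrt (hnn _)
    have qt : Real.sqrt 2 ^ 2 = 2 := Real.sq_sqrt (by norm_num)
    have p0 := Real.sqrt_nonneg (A j)
    have p1 := Real.sqrt_nonneg (A (j + 1))
    have p3 := Real.sqrt_nonneg (A (j + 3))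
    have pt := Real.sqrt_nonneg (2 : ℝ)
    have e4 : Real.sqrt (A (j + 3)) ≤ Real.sqrt (A j) + 3 * Real.sqrt 2 := by
      have : Real.sqrt (A (j + 2 + 1)) = Real.sqrt (A (j + 3)) := rfl
      have : Real.sqrt (A (j + 1 + 1)) = Real.sqrt (A (j + 2)) := rfl
      linarith
    have u1 : A (j + 3) ≤ (Real.sqrt (A j) + 3 * Real.sqrt 2) ^ 2 := by
      rw [← q3]
      exact pow_le_pow_left₀ p3 e4 2
    have u2 : A (j + 1) ≤ (Real.sqrt (A j) + Real.sqrt 2) ^ 2 := by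
      rw [← q1]
      exact pow_le_pow_left₀ p1 e1 2
    nlinarith [sq_nonneg (Real.sqrt (A j) - 6 * Real.sqrt 2),
      sq_nonneg (Real.sqrt (A j) - Real.sqrt 2)]
  have hterm : ∀ j, (A (j + 1) - A j) * Real.exp (-A j + (A (j + 3) - A j)) ≤
      4 * Real.exp 55 * (Real.exp (-(A j) / 4) - Real.exp (-(A (j + 1)) / 4)) := by
    intro j
    have hd : 0 ≤ A (j + 1) - A j := sub_nonneg.2 (hA (Nat.le_succ j))
    have h1 : (A (j + 1) - A j) * Real.exp (-A j + (A (j + 3) - A j)) ≤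
        (A (j + 1) - A j) * (Real.exp (-(A (j + 1)) / 4) * Real.exp 55) := by
      rw [← Real.exp_add]
      exact mul_le_mul_of_nonneg_left (Real.exp_le_exp.2 (hexp j)) hd
    have h2 : (A (j + 1) - A j) / 4 + 1 ≤ Real.exp ((A (j + 1) - A j) / 4) :=
      Real.add_one_le_exp _
    have h3 : Real.exp (-(A j) / 4) =
        Real.exp ((A (j + 1) - A j) / 4) * Real.exp (-(A (j + 1)) / 4) := by
      rw [← Real.exp_add]
      congr 1
      ring
    have h4 : (A (j + 1) - A j) * Real.exp (-(A (j + 1)) / 4) ≤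
        4 * (Real.exp (-(A j) / 4) - Real.exp (-(A (j + 1)) / 4)) := by
      rw [h3]
      have hp := Real.exp_pos (-(A (j + 1)) / 4)
      nlinarith [mul_le_mul_of_nonneg_right h2 hp.le]
    calc (A (j + 1) - A j) * Real.exp (-A j + (A (j + 3) - A j))
        ≤ (A (j + 1) - A j) * (Real.exp (-(A (j + 1)) / 4) * Real.exp 55) := h1
      _ = ((A (j + 1) - A j) * Real.exp (-(A (j + 1)) / 4)) * Real.exp 55 := by ring
      _ ≤ (4 * (Real.exp (-(A j) / 4) - Real.exp (-(A (j + 1)) / 4))) * Real.exp 55 :=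
          mul_le_mul_of_nonneg_right h4 (Real.exp_pos _).le
      _ = 4 * Real.exp 55 * (Real.exp (-(A j) / 4) - Real.exp (-(A (j + 1)) / 4)) := by ring
  calc ∑ j ∈ Finset.range J, (A (j + 1) - A j) * Real.exp (-A j + (A (j + 3) - A j))
      ≤ ∑ j ∈ Finset.range J,
        4 * Real.exp 55 * (Real.exp (-(A j) / 4) - Real.exp (-(A (j + 1)) / 4)) :=
        Finset.sum_le_sum fun j _ => hterm j
    _ = 4 * Real.exp 55 * (Real.exp (-(A 0) / 4) - Real.exp (-(A J) / 4)) := by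
        rw [← Finset.mul_sum, Finset.sum_range_sub' (fun j => Real.exp (-(A j) / 4)) J]
    _ ≤ 4 * Real.exp 55 * 1 := by
        refine mul_le_mul_of_nonneg_left ?_ (by positivity)
        rw [h0]
        have := Real.exp_pos (-(A J) / 4)
        simp only [neg_zero, zero_div, Real.exp_zero]
        linarith
    _ = 4 * Real.exp 55 := mul_one _
-- END sq4

-- BEGIN sq5
/-- Each factor is at most the exponential of its excess over 1. -/
theorem prod_exp {n : ℕ} (F G : Fin n → ℝ) (h0 : ∀ i, 0 ≤ F i) (h1 : ∀ i, F i ≤ G i)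
    (h2 : ∀ i, G i ≤ 1) (i0 : Fin n) :
    ∏ i ∈ Finset.univ.erase i0, (1 - F i + (G i - F i)) ≤
      Real.exp 1 * Real.exp (-(∑ i, F i) + (∑ i, G i - ∑ i, F i)) := by
  have a : ∏ i ∈ Finset.univ.erase i0, (1 - F i + (G i - F i)) ≤
      ∏ i ∈ Finset.univ.erase i0, Real.exp (-F i + (G i - F i)) := by
    apply Finset.prod_le_prod
    · intro i _
      have := h1 i
      have := h2 i
      linarith
    · intro i _
      have := Real.add_one_le_exp (-F i + (G i - F i))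
      linarith
  refine a.trans ?_
  rw [← Real.exp_sum, ← Real.exp_add]
  apply Real.exp_le_exp.2
  have e : ∑ i, (-F i + (G i - F i)) = (-F i0 + (G i0 - F i0)) +
      ∑ i ∈ Finset.univ.erase i0, (-F i + (G i - F i)) :=
    (Finset.add_sum_erase Finset.univ _ (Finset.mem_univ i0)).symm
  have e2 : ∑ i, (-F i + (G i - F i)) = -(∑ i, F i) + (∑ i, G i - ∑ i, F i) := by
    rw [Finset.sum_add_distrib, Finset.sum_sub_distrib, Finset.sum_neg_distrib]
  have a1 := h0 i0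
  have a2 := h1 i0
  have a3 := h2 i0
  linarith
-- END sq5

end Pool.Agent.Vor
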