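import Pool.Agent.Vor.Ring
import Pool.Agent.Vor.Seq

set_option autoImplicit false

namespace Pool.Agent.Vor

open MeasureTheory Set
open scoped ENNReal NNReal

-- BEGIN cnt
/-- If the set is empty clear (0). Otherwise `n > 0`; let `i0` minimise `D`, `j = ⌊D i0 / δ⌋₊`, `S = {i | D i < (j+3) δ}`. Every `T` of the set is a subset of `S` (`D i < D i0 + 2δ < (j+3)δ`), so there are at most `2^#S`; the term `(j, i0)` of the right side equals `2 · ∏_{i ≠ i0} (2 if i ∈ S else 1) = 2^#S` (all `D i ≥ D i0 ≥ jδ`, `i0 ∈ S`); `ENNReal.le_tsum`, `Finset.single_le_sum`. -/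
theorem count_le {n : ℕ} (D : Fin n → ℝ) (hD : ∀ i, 0 ≤ D i) {δ : ℝ} (hδ : 0 < δ) :
    ((Set.ncard {T : Finset (Fin n) | T.Nonempty ∧ ∀ i ∈ T, ∀ j, D i < D j + 2 * δ} : ℕ) : ℝ≥0∞) ≤
      ∑' j : ℕ, ∑ i0, ∏ i, wt δ j (i = i0) (D i) := by
  rcases isEmpty_or_nonempty (Fin n) with hn | hn
  · have h1 : {T : Finset (Fin n) | T.Nonempty ∧ ∀ i ∈ T, ∀ j, D i < D j + 2 * δ} = ∅ := by
      refine Set.eq_empty_of_forall_notMem ?_
      rintro T ⟨⟨x, _⟩, _⟩
      exact hn.elim x
    rw [h1, Set.ncard_empty, Nat.cast_zero]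
    exact bot_le
  · obtain ⟨i0, hi0⟩ := Finite.exists_min D
    set j : ℕ := ⌊D i0 / δ⌋₊ with hj
    have hj1 : (j : ℝ) * δ ≤ D i0 := by
      rw [← le_div_iff₀ hδ]
      exact Nat.floor_le (div_nonneg (hD i0) hδ.le)
    have hj2 : D i0 < ((j : ℝ) + 1) * δ := by
      rw [← div_lt_iff₀ hδ]
      exact Nat.lt_floor_add_one _
    set S : Finset (Fin n) := Finset.univ.filter (fun i => D i < ((j : ℝ) + 3) * δ) with hS
    have hiS : ∀ i, i ∈ S ↔ D i < ((j : ℝ) + 3) * δ := fun i => by
      rw [hS, Finset.mem_filter]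
      exact ⟨fun h => h.2, fun h => ⟨Finset.mem_univ _, h⟩⟩
    have hsub : {T : Finset (Fin n) | T.Nonempty ∧ ∀ i ∈ T, ∀ j, D i < D j + 2 * δ} ⊆
        (S.powerset : Set (Finset (Fin n))) := by
      rintro T ⟨_, hT⟩
      rw [Finset.mem_coe, Finset.mem_powerset]
      intro i hi
      rw [hiS]
      have h1 := hT i hi i0
      nlinarith
    have hcard : Set.ncard {T : Finset (Fin n) | T.Nonempty ∧ ∀ i ∈ T, ∀ j, D i < D j + 2 * δ} ≤
        2 ^ S.card := by
      have h1 := Set.ncard_le_ncard hsub (Finset.finite_toSet _)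
      rwa [Set.ncard_coe_finset, Finset.card_powerset] at h1
    have hterm : ∏ i, wt δ j (i = i0) (D i) = 2 ^ S.card := by
      have h1 : ∀ i ∈ (Finset.univ : Finset (Fin n)), wt δ j (i = i0) (D i) =
          if i ∈ S then (2 : ℝ≥0∞) else 1 := by
        intro i _
        unfold wt
        by_cases h : i = i0
        · subst h
          rw [if_pos rfl, if_pos ⟨hj1, hj2⟩, if_pos ((hiS _).2 (by nlinarith))]
        · rw [if_neg h, if_pos (hj1.trans (hi0 i))]
          by_cases h2 : i ∈ S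
          · rw [if_pos ((hiS i).1 h2), if_pos h2]
          · rw [if_neg (fun h3 => h2 ((hiS i).2 h3)), if_neg h2]
      rw [Finset.prod_congr rfl h1, Finset.prod_ite, Finset.prod_const_one, mul_one,
        Finset.prod_const, Finset.filter_mem_eq_inter, Finset.univ_inter]
    calc ((Set.ncard {T : Finset (Fin n) | T.Nonempty ∧ ∀ i ∈ T, ∀ j, D i < D j + 2 * δ} : ℕ) : ℝ≥0∞)
        ≤ ((2 ^ S.card : ℕ) : ℝ≥0∞) := Nat.cast_le.2 hcard
      _ = ∏ i, wt δ j (i = i0) (D i) := by rw [hterm, Nat.cast_pow, Nat.cast_ofNat]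
      _ ≤ ∑ i0, ∏ i, wt δ j (i = i0) (D i) :=
          Finset.single_le_sum (f := fun i0 => ∏ i, wt δ j (i = i0) (D i)) (fun _ _ => bot_le)
            (Finset.mem_univ i0)
      _ ≤ ∑' j : ℕ, ∑ i0, ∏ i, wt δ j (i = i0) (D i) :=
          ENNReal.le_tsum (f := fun j : ℕ => ∑ i0, ∏ i, wt δ j (i = i0) (D i)) j
-- END cnt

-- BEGIN grd
/-- `G` = the points `δ • m`, `m` an integer vector with `|m_k| ≤ ⌊1/δ + 1/2⌋`, with `‖g‖ ≤ 2` (filter). For `x` take `m_k = round (x_k/δ)`: `|x_k - δ m_k| ≤ δ/2`, so `‖x - g‖ ≤ (√3/2) δ < δ` and `‖g‖ ≤ 1 + δ ≤ 2`. Number: `(2⌊1/δ+1/2⌋+1)³ ≤ (2/δ+2)³ ≤ (4/δ)³` (`Fintype.piFinset` of `Finset.Icc (-N) N`). -/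
theorem exists_grid {δ : ℝ} (hδ : 0 < δ) (hδ1 : δ ≤ 1) :
    ∃ G : Finset E, (∀ g ∈ G, ‖g‖ ≤ 2) ∧ (∀ x : E, ‖x‖ ≤ 1 → ∃ g ∈ G, ‖x - g‖ < δ) ∧
      (G.card : ℝ) ≤ 64 / δ ^ 3 := by
  classical
  set N : ℤ := ⌊1 / δ + 1 / 2⌋ with hN
  have hN0 : 0 ≤ N := Int.floor_nonneg.2 (by positivity)
  set B : Finset (Fin 3 → ℤ) := Fintype.piFinset (fun _ => Finset.Icc (-N) N) with hB
  set v : (Fin 3 → ℤ) → E := fun m => WithLp.toLp 2 (fun k => δ * (m k : ℝ)) with hv
  refine ⟨(B.image v).filter (fun g => ‖g‖ ≤ 2), fun g hg => (Finset.mem_filter.1 hg).2, ?_, ?_⟩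
  · intro x hx
    set m : Fin 3 → ℤ := fun k => round (x k / δ) with hm
    have hk : ∀ k, |x k - δ * (m k : ℝ)| ≤ δ / 2 := by
      intro k
      have h1 := abs_sub_round (x k / δ)
      have h2 : x k - δ * (m k : ℝ) = δ * (x k / δ - (round (x k / δ) : ℝ)) := by
        rw [mul_sub, mul_div_cancel₀ _ hδ.ne']
      rw [h2, abs_mul, abs_of_pos hδ]
      nlinarith
    have hxk : ∀ k, |x k| ≤ 1 := fun k => (PiLp.norm_apply_le x k).trans hx
    have hdist : ‖x - v m‖ < δ := by
      rw [EuclideanSpace.norm_eq]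
      rw [Real.sqrt_lt' hδ, Fin.sum_univ_three]
      have e : ∀ k, ‖(x - v m) k‖ ^ 2 ≤ (δ / 2) ^ 2 := by
        intro k
        have : (x - v m) k = x k - δ * (m k : ℝ) := rfl
        rw [this, Real.norm_eq_abs]
        exact pow_le_pow_left₀ (abs_nonneg _) (hk k) 2
      have e0 := e 0
      have e1 := e 1
      have e2 := e 2
      nlinarith [sq_pos_of_pos hδ]
    refine ⟨v m, Finset.mem_filter.2 ⟨Finset.mem_image.2 ⟨m, ?_, rfl⟩, ?_⟩, hdist⟩
    · rw [hB, Fintype.mem_piFinset]
      intro k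
      have h1 := abs_sub_round (x k / δ)
      have h2 : |x k / δ| ≤ 1 / δ := by
        rw [abs_div, abs_of_pos hδ]
        exact div_le_div_of_nonneg_right (hxk k) hδ.le
      have h3 : |(m k : ℝ)| ≤ 1 / δ + 1 / 2 := by
        have h4 : |(m k : ℝ)| ≤ |x k / δ| + |x k / δ - (m k : ℝ)| := by
          have h5 := abs_sub_abs_le_abs_sub (m k : ℝ) (x k / δ)
          rw [abs_sub_comm] at h5
          linarith
        have h6 : |x k / δ - (m k : ℝ)| ≤ 1 / 2 := h1
        linarith
      have h7 : |m k| ≤ N := by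
        rw [hN, Int.le_floor]
        rw [Int.cast_abs]
        exact h3
      rw [Finset.mem_Icc]
      exact ⟨(abs_le.1 h7).1, (abs_le.1 h7).2⟩
    · have h8 : v m = x - (x - v m) := by abel
      calc ‖v m‖ = ‖x - (x - v m)‖ := by rw [← h8]
        _ ≤ ‖x‖ + ‖x - v m‖ := norm_sub_le _ _
        _ ≤ 2 := by linarith
  · have h1 : (((B.image v).filter (fun g => ‖g‖ ≤ 2)).card : ℝ) ≤ (B.card : ℝ) := by
      exact_mod_cast (Finset.card_filter_le _ _).trans Finset.card_image_le
    have h2 : (B.card : ℝ) = (2 * (N : ℝ) + 1) ^ 3 := by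
      rw [hB, Fintype.card_piFinset]
      simp only [Int.card_Icc, Finset.prod_const, Finset.card_univ, Fintype.card_fin]
      have h3 : ((N + 1 - -N).toNat : ℝ) = 2 * (N : ℝ) + 1 := by
        have h4 : ((N + 1 - -N).toNat : ℤ) = N + 1 - -N := Int.toNat_of_nonneg (by omega)
        have h5 : (((N + 1 - -N).toNat : ℤ) : ℝ) = ((N + 1 - -N : ℤ) : ℝ) := by rw [h4]
        rw [Int.cast_natCast] at h5
        rw [h5]
        push_cast
        ring
      push_cast
      rw [h3]
    have h6 : (N : ℝ) ≤ 1 / δ + 1 / 2 := Int.floor_le _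
    have h7 : 2 * (N : ℝ) + 1 ≤ 4 / δ := by
      have h8 : 1 ≤ 1 / δ := by
        rw [le_div_iff₀ hδ]
        linarith
      have h9 : 4 / δ = 4 * (1 / δ) := by ring
      rw [h9]
      linarith
    have hN' : (0 : ℝ) ≤ N := by exact_mod_cast hN0
    calc (((B.image v).filter (fun g => ‖g‖ ≤ 2)).card : ℝ) ≤ (B.card : ℝ) := h1
      _ = (2 * (N : ℝ) + 1) ^ 3 := h2
      _ ≤ (4 / δ) ^ 3 := pow_le_pow_left₀ (by linarith) h7 3
      _ = 64 / δ ^ 3 := by
        rw [div_pow]
        norm_num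
-- END grd

-- BEGIN prd
/-- Induction on `n` with `measurePreserving_piFinSuccAbove` and `lintegral_prod_mul`, or `lintegral` version of `integral_fintype_prod_eq_prod`; search Mathlib for `lintegral_pi` / `Measure.pi` first. -/
theorem lintegral_pi_prod {n : ℕ} (μ : Fin n → Measure E) [∀ i, SigmaFinite (μ i)]
    (φ : Fin n → E → ℝ≥0∞) (hφ : ∀ i, Measurable (φ i)) :
    ∫⁻ p, ∏ i, φ i (p i) ∂(Measure.pi μ) = ∏ i, ∫⁻ x, φ i x ∂(μ i) := by
  induction n with
  | zero => simp
  | succ n ih =>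
    have hmp := measurePreserving_piFinSuccAbove μ 0
    have h1 := hmp.lintegral_comp_emb (MeasurableEquiv.piFinSuccAbove (fun _ : Fin (n + 1) => E) 0).measurableEmbedding
      (fun z : E × (Fin n → E) => φ 0 z.1 * ∏ j : Fin n, φ (Fin.succ j) (z.2 j))
    have hm : Measurable fun q : Fin n → E => ∏ j : Fin n, φ (Fin.succ j) (q j) :=
      Finset.measurable_prod _ fun j _ => (hφ (Fin.succ j)).comp (measurable_pi_apply j)
    have h3 := lintegral_prod_mul (μ := μ 0) (ν := Measure.pi fun j : Fin n => μ (Fin.succAbove 0 j))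
      (f := φ 0) (g := fun q : Fin n → E => ∏ j : Fin n, φ (Fin.succ j) (q j)) (hφ 0).aemeasurable hm.aemeasurable
    have h2 := ih (fun j : Fin n => μ (Fin.succAbove 0 j)) (fun j => φ (Fin.succ j)) (fun j => hφ (Fin.succ j))
    rw [h2] at h3
    rw [Fin.prod_univ_succ]
    simp only [Fin.succAbove_zero] at h1 h3
    rw [← h3]
    refine Eq.trans (lintegral_congr fun p => ?_) h1
    rw [Fin.prod_univ_succ]
    rfl
-- END prd

-- BEGIN nrv
/-- The nerve is covered by the families of the grid points. -/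
theorem nerve_le {n : ℕ} {u : Fin n → E} (hu : ∀ i, ‖u i‖ = 1) {δ : ℝ} (hδ : 0 < δ) (G : Finset E)
    (hG : ∀ x : E, ‖x‖ ≤ 1 → ∃ g ∈ G, ‖x - g‖ < δ) (p : Fin n → E) :
    (((Nerve u p).ncard : ℕ) : ℝ≥0∞) ≤
      ∑ g ∈ G, ∑' j : ℕ, ∑ i0, ∏ i, wt δ j (i = i0) (dl (u i) (g - p i)) := by
  classical
  set S : E → Set (Finset (Fin n)) := fun g =>
    {T | T.Nonempty ∧ ∀ i ∈ T, ∀ j, dl (u i) (g - p i) < dl (u j) (g - p j) + 2 * δ} with hS
  have hsub : Nerve u p ⊆ ⋃ g ∈ G, S g := by
    rintro T ⟨hT, x, hx, hx2⟩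
    rw [Metric.mem_closedBall, dist_zero_right] at hx
    obtain ⟨g, hg, hgx⟩ := hG x hx
    simp only [mem_iUnion]
    refine ⟨g, hg, hT, fun i hi j => ?_⟩
    have h := hx2 i hi j
    rw [infDist_line (hu i), infDist_line (hu j)] at h
    have a := (dl_basic (hu i)).2.2.2.2.2 (g - p i) (x - p i)
    have b := (dl_basic (hu j)).2.2.2.2.2 (x - p j) (g - p j)
    have c : g - p i - (x - p i) = -(x - g) := by abel
    have d : x - p j - (g - p j) = x - g := by abel
    rw [c, norm_neg] at a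
    rw [d] at b
    linarith
  have h1 : (Nerve u p).ncard ≤ ∑ g ∈ G, (S g).ncard := by
    refine (Set.ncard_le_ncard hsub (Set.toFinite _)).trans ?_
    have : ∀ G' : Finset E, (⋃ g ∈ G', S g).ncard ≤ ∑ g ∈ G', (S g).ncard := by
      intro G'
      induction G' using Finset.induction_on with
      | empty => simp
      | insert a s ha ih =>
        rw [Finset.set_biUnion_insert, Finset.sum_insert ha]
        exact (Set.ncard_union_le _ _).trans (by omega)
    exact this G
  calc (((Nerve u p).ncard : ℕ) : ℝ≥0∞) ≤ ((∑ g ∈ G, (S g).ncard : ℕ) : ℝ≥0∞) := by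
        exact_mod_cast h1
    _ = ∑ g ∈ G, ((S g).ncard : ℝ≥0∞) := by push_cast; rfl
    _ ≤ _ := Finset.sum_le_sum fun g _ =>
        count_le (fun i => dl (u i) (g - p i)) (fun i => (dl_basic (hu i)).2.1 _) hδ
-- END nrv

-- BEGIN wme
/-- The weight is a measurable function of the point. -/
theorem wt_measurable {u : E} (hu : ‖u‖ = 1) (δ : ℝ) (j : ℕ) (star : Prop) [Decidable star] (g : E) :
    Measurable (fun x : E => wt δ j star (dl u (g - x))) := by
  have hc : Measurable (fun x : E => dl u (g - x)) :=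
    ((dl_basic hu).1.comp (continuous_const.sub continuous_id)).measurable
  have hw : Measurable (wt δ j star) := by
    unfold wt
    by_cases hs : star
    · simp only [hs, if_true]
      exact Measurable.ite ((measurableSet_le measurable_const measurable_id).inter
        (measurableSet_lt measurable_id measurable_const)) measurable_const measurable_const
    · simp only [hs, if_false]
      exact Measurable.ite (measurableSet_le measurable_const measurable_id)
        (Measurable.ite (measurableSet_lt measurable_id measurable_const) measurable_const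
          measurable_const) measurable_const
  exact hw.comp hc
-- END wme

-- BEGIN shf
/-- Change of variables `w = g - x`. -/
theorem lintegral_shift {f : E → ℝ≥0} (hf : Measurable f) (g : E) (F : E → ℝ≥0∞) (hF : Measurable F) :
    ∫⁻ x, F (g - x) ∂(volume.withDensity (fun x => (f x : ℝ≥0∞))) =
      ∫⁻ w, F w * f (g - w) := by
  have hF' : Measurable (fun x => F (g - x)) := hF.comp (measurable_const.sub measurable_id)
  rw [lintegral_withDensity_eq_lintegral_mul _ hf.coe_nnreal_ennreal hF']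
  rw [← lintegral_sub_left_eq_self (fun w => F w * (f (g - w) : ℝ≥0∞)) g]
  refine lintegral_congr fun x => ?_
  simp only [Pi.mul_apply, sub_sub_cancel]
  exact mul_comm _ _
-- END shf

-- BEGIN w1
/-- The integral of the star weight. -/
theorem wt_star {u : E} (hu : ‖u‖ = 1) {h : E → ℝ≥0} (hm : Measurable h) (δ : ℝ) (j : ℕ)
    (star : Prop) [Decidable star] (hs : star) :
    ∫⁻ w, wt δ j star (dl u w) * h w = 2 * rg u h δ j := by
  unfold rg
  rw [← lintegral_const_mul _ hm.coe_nnreal_ennreal, ← lintegral_indicator (measurableSet_ring hu _ _)]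
  refine lintegral_congr fun w => ?_
  unfold wt
  rw [if_pos hs]
  by_cases hw : w ∈ ring u (j * δ) ((j + 1) * δ)
  · rw [indicator_of_mem hw, if_pos (show (j : ℝ) * δ ≤ dl u w ∧ dl u w < (j + 1) * δ from hw)]
  · rw [indicator_of_notMem hw,
      if_neg (show ¬ ((j : ℝ) * δ ≤ dl u w ∧ dl u w < (j + 1) * δ) from hw), zero_mul]
-- END w1

-- BEGIN w0
/-- The integral of the weight of another index. -/
theorem wt_other {u : E} (hu : ‖u‖ = 1) {h : E → ℝ≥0} (hm : Measurable h) (h1 : ∫⁻ w, h w = 1)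
    {δ : ℝ} (hδ : 0 < δ) (j : ℕ) (star : Prop) [Decidable star] (hs : ¬ star) :
    ∫⁻ w, wt δ j star (dl u w) * h w =
      ENNReal.ofReal (1 - ∑ k ∈ Finset.range j, (rg u h δ k).toReal +
        (∑ k ∈ Finset.range (j + 3), (rg u h δ k).toReal - ∑ k ∈ Finset.range j, (rg u h δ k).toReal)) := by
  have hfin : ∀ k, rg u h δ k ≠ ⊤ := (rg_total hu hm h1 hδ 0).2
  set X : ℝ≥0∞ := ∫⁻ w, wt δ j star (dl u w) * h w with hX
  set A : ℝ≥0∞ := ∫⁻ w in ring u ((0 : ℕ) * δ) (j * δ), (h w : ℝ≥0∞) with hA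
  set B : ℝ≥0∞ := ∫⁻ w in ring u (j * δ) ((j + 3 : ℕ) * δ), (h w : ℝ≥0∞) with hB
  have hAs : A = ∑ l ∈ Finset.Ico 0 j, rg u h δ l := rg_sum hu hm hδ 0 j (Nat.zero_le _)
  have hBs : B = ∑ l ∈ Finset.Ico j (j + 3), rg u h δ l := rg_sum hu hm hδ j (j + 3) (by omega)
  have key : X + A = 1 + B := by
    rw [hX, hA, hB, ← h1, ← lintegral_indicator (measurableSet_ring hu _ _),
      ← lintegral_indicator (measurableSet_ring hu _ _),
      ← lintegral_add_right _ (hm.coe_nnreal_ennreal.indicator (measurableSet_ring hu _ _)),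
      ← lintegral_add_right _ (hm.coe_nnreal_ennreal.indicator (measurableSet_ring hu _ _))]
    refine lintegral_congr fun w => ?_
    have hd := (dl_basic hu).2.1 w
    unfold wt
    rw [if_neg hs]
    by_cases h2 : (j : ℝ) * δ ≤ dl u w
    · rw [if_pos h2, indicator_of_notMem (s := ring u ((0 : ℕ) * δ) (j * δ))
        (fun hw => absurd hw.2 (not_lt.2 h2)), add_zero]
      by_cases h3 : dl u w < (j + 3) * δ
      · rw [if_pos h3, indicator_of_mem (show w ∈ ring u (j * δ) ((j + 3 : ℕ) * δ) from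
          ⟨h2, by push_cast; exact h3⟩)]
        ring
      · rw [if_neg h3, indicator_of_notMem (fun hw => h3 (by have := hw.2; push_cast at this; exact this)),
          one_mul, add_zero]
    · rw [if_neg h2, zero_mul, zero_add,
        indicator_of_mem (show w ∈ ring u ((0 : ℕ) * δ) (j * δ) from
          ⟨by push_cast; rw [zero_mul]; exact hd, not_le.1 h2⟩),
        indicator_of_notMem (fun hw => h2 hw.1), add_zero]
  have hAf : A ≠ ⊤ := by
    rw [hAs]; exact ENNReal.sum_ne_top.2 fun k _ => hfin k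
  have hBf : B ≠ ⊤ := by
    rw [hBs]; exact ENNReal.sum_ne_top.2 fun k _ => hfin k
  have hXf : X ≠ ⊤ := by
    intro hx
    rw [hx, top_add] at key
    exact (ENNReal.add_ne_top.2 ⟨ENNReal.one_ne_top, hBf⟩) key.symm
  have hr : X.toReal + A.toReal = 1 + B.toReal := by
    rw [← ENNReal.toReal_add hXf hAf, key, ENNReal.toReal_add ENNReal.one_ne_top hBf,
      ENNReal.toReal_one]
  have hAr : A.toReal = ∑ k ∈ Finset.range j, (rg u h δ k).toReal := by
    rw [hAs, ENNReal.toReal_sum fun k _ => hfin k, Finset.range_eq_Ico]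
  have hBr : B.toReal = ∑ k ∈ Finset.range (j + 3), (rg u h δ k).toReal -
      ∑ k ∈ Finset.range j, (rg u h δ k).toReal := by
    rw [hBs, ENNReal.toReal_sum fun k _ => hfin k, Finset.sum_Ico_eq_sub _ (by omega)]
  rw [← ENNReal.ofReal_toReal hXf]
  congr 1
  linarith
-- END w0

-- BEGIN ptg
/-- One grid point contributes a bounded amount. -/
theorem per_point {n : ℕ} (hn : 0 < n) {K : ℝ≥0} {u : Fin n → E} (hu : ∀ i, ‖u i‖ = 1)
    {h : Fin n → E → ℝ≥0} (hK : ∀ i, LipschitzWith K (h i)) (h0 : ∀ i w, 3 < ‖w‖ → h i w = 0)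
    (h1 : ∀ i, ∫⁻ w, h i w = 1) {δ : ℝ} (hδ : 0 < δ) (hδK : 1000 * K * δ ^ 2 = 1 / n) :
    ∑' j : ℕ, ∑ i0, ∏ i, ∫⁻ w, wt δ j (i = i0) (dl (u i) w) * h i w ≤
      ENNReal.ofReal (8 * Real.exp 56) := by
  have hm : ∀ i, Measurable (h i) := fun i => (hK i).continuous.measurable
  set ρ : Fin n → ℕ → ℝ := fun i j => (rg (u i) (h i) δ j).toReal with hρ
  set F : Fin n → ℕ → ℝ := fun i j => ∑ k ∈ Finset.range j, ρ i k with hF
  set A : ℕ → ℝ := fun j => ∑ i, F i j with hA
  have hρ0 : ∀ i j, 0 ≤ ρ i j := fun i j => ENNReal.toReal_nonneg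
  have htop : ∀ i j, rg (u i) (h i) δ j ≠ ⊤ := fun i j => (rg_total (hu i) (hm i) (h1 i) hδ 0).2 j
  have hF1 : ∀ i j, F i j ≤ 1 := fun i j => (rg_total (hu i) (hm i) (h1 i) hδ j).1
  have hF0 : ∀ i j, 0 ≤ F i j := fun i j => Finset.sum_nonneg fun k _ => hρ0 i k
  have hFm : ∀ i, Monotone (F i) := by
    intro i a b hab
    exact Finset.sum_le_sum_of_subset_of_nonneg (Finset.range_mono hab) (fun k _ _ => hρ0 i k)
  have hn' : (0 : ℝ) ≤ 1 / n := by positivity
  have r0 : ∀ i, ρ i 0 ≤ 1 / n := by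
    intro i
    have := rg_zero (hu i) (hK i) (h0 i) hδ
    rw [hδK] at this
    have h2 := ENNReal.toReal_mono ENNReal.ofReal_ne_top this
    rwa [ENNReal.toReal_ofReal hn'] at h2
  have rs : ∀ i j, ρ i (j + 1) ≤ ρ i j + 1 / n := by
    intro i j
    have := rg_step (hu i) (hK i) (h0 i) hδ j
    rw [hδK] at this
    have h2 := ENNReal.toReal_mono (ENNReal.add_ne_top.2 ⟨htop i j, ENNReal.ofReal_ne_top⟩) this
    rwa [ENNReal.toReal_add (htop i j) ENNReal.ofReal_ne_top, ENNReal.toReal_ofReal hn'] at h2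
  have hAs : ∀ j, A (j + 1) - A j = ∑ i, ρ i j := by
    intro j
    simp only [hA, hF, Finset.sum_range_succ, Finset.sum_add_distrib]
    ring
  have hAm : Monotone A := by
    intro a b hab
    exact Finset.sum_le_sum fun i _ => hFm i hab
  have hA0 : A 0 = 0 := by simp [hA, hF]
  have hAq : ∀ j, A (j + 1) - A j ≤ Real.sqrt (2 * A (j + 1)) := by
    intro j
    rw [hAs]
    exact seq_sum hn ρ hρ0 r0 rs j
  -- one term
  have term : ∀ j i0, ∏ i, ∫⁻ w, wt δ j (i = i0) (dl (u i) w) * h i w ≤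
      ENNReal.ofReal (2 * ρ i0 j * (Real.exp 1 * Real.exp (-A j + (A (j + 3) - A j)))) := by
    intro j i0
    rw [← Finset.mul_prod_erase Finset.univ _ (Finset.mem_univ i0)]
    have e1 : ∫⁻ w, wt δ j (i0 = i0) (dl (u i0) w) * h i0 w = ENNReal.ofReal (2 * ρ i0 j) := by
      rw [wt_star (hu i0) (hm i0) δ j (i0 = i0) rfl, ENNReal.ofReal_mul (by norm_num)]
      simp only [hρ]
      rw [ENNReal.ofReal_toReal (htop i0 j)]
      norm_num
    have e2 : ∀ i ∈ Finset.univ.erase i0, ∫⁻ w, wt δ j (i = i0) (dl (u i) w) * h i w =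
        ENNReal.ofReal (1 - F i j + (F i (j + 3) - F i j)) := by
      intro i hi
      exact wt_other (hu i) (hm i) (h1 i) hδ j (i = i0) (Finset.ne_of_mem_erase hi)
    rw [Finset.prod_congr rfl e2, e1, ← ENNReal.ofReal_prod_of_nonneg,
      ← ENNReal.ofReal_mul (by have := hρ0 i0 j; positivity)]
    · apply ENNReal.ofReal_le_ofReal
      apply mul_le_mul_of_nonneg_left _ (by have := hρ0 i0 j; positivity)
      have := prod_exp (fun i => F i j) (fun i => F i (j + 3)) (fun i => hF0 i j)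
        (fun i => hFm i (by omega)) (fun i => hF1 i (j + 3)) i0
      exact this
    · intro i _
      have a1 := hF1 i j
      have a2 := hFm i (show j ≤ j + 3 by omega)
      linarith
  have row : ∀ j, ∑ i0, ∏ i, ∫⁻ w, wt δ j (i = i0) (dl (u i) w) * h i w ≤
      ENNReal.ofReal (2 * Real.exp 1 *
        ((A (j + 1) - A j) * Real.exp (-A j + (A (j + 3) - A j)))) := by
    intro j
    refine (Finset.sum_le_sum fun i0 _ => term j i0).trans ?_
    rw [← ENNReal.ofReal_sum_of_nonneg]
    · apply ENNReal.ofReal_le_ofReal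
      apply le_of_eq
      rw [hAs, ← Finset.sum_mul, ← Finset.mul_sum]
      ring
    · intro i0 _
      have := hρ0 i0 j
      positivity
  apply ENNReal.tsum_le_of_sum_range_le
  intro J
  refine (Finset.sum_le_sum fun j _ => row j).trans ?_
  rw [← ENNReal.ofReal_sum_of_nonneg]
  · apply ENNReal.ofReal_le_ofReal
    rw [← Finset.mul_sum]
    have t := tele hA0 hAm hAq J
    have : (8 : ℝ) * Real.exp 56 = 2 * Real.exp 1 * (4 * Real.exp 55) := by
      have : Real.exp 56 = Real.exp 1 * Real.exp 55 := by rw [← Real.exp_add]; norm_num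
      rw [this]; ring
    rw [this]
    exact mul_le_mul_of_nonneg_left t (by positivity)
  · intro j _
    have : 0 ≤ A (j + 1) - A j := sub_nonneg.2 (hAm (by omega))
    positivity
-- END ptg

-- BEGIN dsj
theorem dsj_null (a b : E) (c : E) (ν : Measure E) (hν : ν ≪ volume) :
    ν {x | x - c ∈ Submodule.span ℝ {a, b}} = 0 := by
  apply hν
  have hW : Submodule.span ℝ {a, b} ≠ (⊤ : Submodule ℝ E) := by
    intro h
    have h1 : Module.finrank ℝ (Submodule.span ℝ ({a, b} : Set E)) ≤ 2 := by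
      have := finrank_span_finset_le_card (R := ℝ) ({a, b} : Finset E)
      have h2 : (({a, b} : Finset E) : Set E) = {a, b} := by simp
      rw [h2] at this
      exact this.trans Finset.card_le_two
    rw [h, finrank_top] at h1
    simp at h1
  have h0 : (volume : Measure E) (Submodule.span ℝ {a, b} : Submodule ℝ E) = 0 :=
    Measure.addHaar_submodule volume _ hW
  have h3 : {x : E | x - c ∈ Submodule.span ℝ {a, b}} =
      (fun x => x + (-c)) ⁻¹' (Submodule.span ℝ {a, b} : Submodule ℝ E) := by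
    ext x
    simp [sub_eq_add_neg]
  rw [h3, measure_preimage_add_right]
  exact h0

/-- Lines with absolutely continuous points are almost surely pairwise disjoint. -/
theorem ae_disjoint {n : ℕ} {u : Fin n → E} (μ : Fin n → Measure E) [∀ i, SigmaFinite (μ i)]
    (hμ : ∀ i, μ i ≪ volume) :
    ∀ᵐ p ∂(Measure.pi μ), ∀ i j, i ≠ j → Disjoint (line (p i) (u i)) (line (p j) (u j)) := by
  rw [ae_all_iff]
  intro i
  rw [ae_all_iff]
  intro j
  by_cases hij : i = j
  · exact Filter.Eventually.of_forall fun p h => absurd hij h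
  have key : ∀ᵐ p ∂(Measure.pi μ), ¬ (p i - p j ∈ Submodule.span ℝ {u i, u j}) := by
    cases n with
    | zero => exact i.elim0
    | succ m =>
      obtain ⟨k, hk⟩ := Fin.exists_succAbove_eq (Ne.symm hij)
      have mp := measurePreserving_piFinSuccAbove (α := fun _ => E) μ i
      have hcl : IsClosed ((Submodule.span ℝ {u i, u j} : Submodule ℝ E) : Set E) :=
        Submodule.closed_of_finiteDimensional _
      set S : Set (E × (Fin m → E)) := {q | q.1 - q.2 k ∈ Submodule.span ℝ {u i, u j}} with hS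
      have hSm : MeasurableSet S := by
        have hc : Continuous (fun q : E × (Fin m → E) => q.1 - q.2 k) := by fun_prop
        exact (hcl.preimage hc).measurableSet
      have hS0 : ((μ i).prod (Measure.pi fun j => μ (i.succAbove j))) S = 0 := by
        rw [Measure.prod_apply_symm hSm]
        rw [lintegral_eq_zero_of_ae_eq_zero]
        refine Filter.Eventually.of_forall fun y => ?_
        exact dsj_null (u i) (u j) (y k) (μ i) (hμ i)
      have hae : ∀ᵐ q ∂((μ i).prod (Measure.pi fun j => μ (i.succAbove j))), ¬ (q ∈ S) :=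
        (measure_eq_zero_iff_ae_notMem).1 hS0
      have := mp.quasiMeasurePreserving.ae hae
      filter_upwards [this] with p hp hmem
      apply hp
      rw [← hk] at hmem
      simp only [hS, ← hk]
      exact hmem
  filter_upwards [key] with p hp _
  rw [Set.disjoint_left]
  rintro y ⟨t, ht⟩ ⟨s, hs⟩
  apply hp
  have e : p i - p j = (-t) • u i + s • u j := by
    have h5 : p i + t • u i = p j + s • u j := ht.symm.trans hs
    have h6 : p i = p j + s • u j - t • u i := eq_sub_of_add_eq h5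
    rw [h6]
    module
  rw [e]
  exact Submodule.add_mem _ (Submodule.smul_mem _ _ (Submodule.subset_span (by simp)))
    (Submodule.smul_mem _ _ (Submodule.subset_span (by simp)))
-- END dsj

end Pool.Agent.Vor
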