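import Mathlib

set_option autoImplicit false

namespace Pool.Agent.Vor

open MeasureTheory Set
open scoped ENNReal NNReal

/-- three-dimensional Euclidean space -/
abbrev E := EuclideanSpace ℝ (Fin 3)

/-- the distance of `z` to the line through the origin with direction `u` (`‖u‖ = 1`) -/
noncomputable def dl (u z : E) : ℝ := ‖z - (inner ℝ u z) • u‖

/-- the line through `p` with direction `u` -/
def line (p u : E) : Set E := {y | ∃ t : ℝ, y = p + t • u}

/-- the cylindrical ring `a ≤ dl u w < b` -/
def ring (u : E) (a b : ℝ) : Set E := {w | a ≤ dl u w ∧ dl u w < b}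

/-- the mass of the ring number `j` of width `δ` for the density `h` -/
noncomputable def rg (u : E) (h : E → ℝ≥0) (δ : ℝ) (j : ℕ) : ℝ≥0∞ :=
  ∫⁻ w in ring u (j * δ) ((j + 1) * δ), h w

/-- the weight of the index `i` in the term number `(j, i0)`; `star` is `i = i0` -/
noncomputable def wt (δ : ℝ) (j : ℕ) (star : Prop) [Decidable star] (D : ℝ) : ℝ≥0∞ :=
  if star then (if j * δ ≤ D ∧ D < (j + 1) * δ then 2 else 0)
  else (if j * δ ≤ D then (if D < (j + 3) * δ then 2 else 1) else 0)

/-- the set of (index sets of) jointly nearest lines -/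
def Nerve {n : ℕ} (u p : Fin n → E) : Set (Finset (Fin n)) :=
  {T | T.Nonempty ∧ ∃ x ∈ Metric.closedBall (0 : E) 1, ∀ i ∈ T, ∀ j,
    Metric.infDist x (line (p i) (u i)) ≤ Metric.infDist x (line (p j) (u j))}

end Pool.Agent.Vor
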