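import Mathlib
import Pool.Agent.OMin.Bezout

/-!
# An explicit bound for the number of components of sign cells in a box of `ℝ^3`
-/

set_option autoImplicit false

namespace Pool.Agent.Vor

open Set Filter Topology MvPolynomial

-- BEGIN crit
private theorem crit_deg (i : Fin 3) (f : MvPolynomial (Fin 3) ℝ) :
    (pderiv i f).totalDegree ≤ f.totalDegree := by
  classical
  have h0 : pderiv i f = ∑ α ∈ f.support, pderiv i (monomial α (coeff α f)) := by
    conv_lhs => rw [f.as_sum]
    rw [map_sum]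
  rw [h0]
  refine totalDegree_finsetSum_le fun α hα => ?_
  rw [pderiv_monomial]
  refine (totalDegree_monomial_le _ _).trans (le_trans ?_ (le_totalDegree hα))
  have h1 : ∀ β γ : Fin 3 →₀ ℕ, β ≤ γ → (β.sum fun _ e => e) ≤ γ.sum fun _ e => e := by
    intro β γ h
    obtain ⟨δ, rfl⟩ := exists_add_of_le h
    rw [Finsupp.sum_add_index' (fun _ => rfl) (fun _ _ _ => rfl)]
    exact Nat.le_add_right _ _
  exact h1 _ _ tsub_le_self

private theorem crit_deriv (P : MvPolynomial (Fin 3) ℝ) (y : Fin 3 → ℝ) (c : Fin 3) (t : ℝ) :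
    HasDerivAt (fun s => eval (Function.update y c s) P)
      (eval (Function.update y c t) (pderiv c P)) t := by
  classical
  induction P using MvPolynomial.induction_on with
  | C a =>
    simp only [eval_C, pderiv_C, map_zero]
    exact hasDerivAt_const _ _
  | add p q hp hq =>
    simp only [map_add]
    exact hp.add hq
  | mul_X p i hp =>
    rw [pderiv_mul, pderiv_X]
    simp only [map_mul, map_add, eval_X]
    have hi : HasDerivAt (fun s => Function.update y c s i)
        (eval (Function.update y c t) (Pi.single (M := fun _ => MvPolynomial (Fin 3) ℝ) c 1 i)) t := by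
      by_cases h : i = c
      · subst h
        simp only [Function.update_self, Pi.single_eq_same, map_one]
        exact hasDerivAt_id t
      · simp only [Function.update_of_ne h, Pi.single_eq_of_ne h, map_zero]
        exact hasDerivAt_const _ _
    exact hp.mul hi

/-- Disjoint bounded open sets with boundary in the zero set of a polynomial. -/
theorem crit_count (Q : MvPolynomial (Fin 3) ℝ) (D : ℕ) (hD : Q.totalDegree ≤ D)
    (F : Finset (Fin 3 → ℝ)) (W : (Fin 3 → ℝ) → Set (Fin 3 → ℝ))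
    (hO : ∀ x ∈ F, IsOpen (W x)) (hx : ∀ x ∈ F, x ∈ W x)
    (hb : ∀ x ∈ F, Bornology.IsBounded (W x))
    (hz : ∀ x ∈ F, ∀ y ∈ frontier (W x), eval y Q = 0) (hne : ∀ x ∈ F, eval x Q ≠ 0)
    (hdis : ∀ x ∈ F, ∀ y ∈ F, x ≠ y → Disjoint (W x) (W y)) :
    F.card ≤ (2 * D + 1) ^ 3 := by
  classical
  rcases F.eq_empty_or_nonempty with rfl | hF
  · simp
  have hs0 : ∀ y : Fin 3 → ℝ, 0 ≤ ∑ c, y c ^ (2 * D + 2) := fun y =>
    Finset.sum_nonneg fun c _ => by
      have : 2 * D + 2 = 2 * (D + 1) := by ring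
      rw [this, pow_mul]
      positivity
  obtain ⟨e, he, heF⟩ : ∃ e : ℝ, 0 < e ∧ ∀ x ∈ F, e * ∑ c, x c ^ (2 * D + 2) < (eval x Q) ^ 2 := by
    set g : (Fin 3 → ℝ) → ℝ := fun x => (eval x Q) ^ 2 / (2 * (1 + ∑ c, x c ^ (2 * D + 2))) with hg
    have hgp : ∀ x ∈ F, 0 < g x := by
      intro x hxF
      have h1 := hs0 x
      have h2 : 0 < (eval x Q) ^ 2 := by
        have := hne x hxF
        positivity
      positivity
    refine ⟨F.inf' hF g, (Finset.lt_inf'_iff hF).2 hgp, fun x hxF => ?_⟩
    have h1 : F.inf' hF g ≤ g x := Finset.inf'_le g hxF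
    have h2 := hs0 x
    have h3 : g x * (2 * (1 + ∑ c, x c ^ (2 * D + 2))) = (eval x Q) ^ 2 := by
      simp only [hg]
      field_simp
    have h4 := hgp x hxF
    nlinarith [mul_le_mul_of_nonneg_right h1 h2]
  set H : MvPolynomial (Fin 3) ℝ := Q ^ 2 - C e * ∑ c, X c ^ (2 * D + 2) with hH
  have hHe : ∀ y, eval y H = (eval y Q) ^ 2 - e * ∑ c, y c ^ (2 * D + 2) := by
    intro y
    simp [hH, map_sum]
  have hcont : Continuous fun y => eval y H := by
    exact MvPolynomial.continuous_eval H
  have hcrit : ∀ x ∈ F, ∃ y ∈ W x, ∀ c, eval y (pderiv c (Q ^ 2)) +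
      (-(e * (2 * D + 2))) * y c ^ (2 * D + 1) = 0 := by
    intro x hxF
    have hcpt : IsCompact (closure (W x)) := (hb x hxF).isCompact_closure
    obtain ⟨y, hy, hmax⟩ := hcpt.exists_isMaxOn ⟨x, subset_closure (hx x hxF)⟩ hcont.continuousOn
    have hpos : 0 < eval y H := by
      have h1 : eval x H ≤ eval y H := hmax (subset_closure (hx x hxF))
      rw [hHe x] at h1
      have := heF x hxF
      linarith
    have hyW : y ∈ W x := by
      by_contra hyn
      have hfr : y ∈ frontier (W x) := by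
        rw [frontier, (hO x hxF).interior_eq]
        exact ⟨hy, hyn⟩
      rw [hHe, hz x hxF y hfr] at hpos
      have := mul_nonneg he.le (hs0 y)
      norm_num at hpos
      linarith
    refine ⟨y, hyW, fun c => ?_⟩
    have hloc : IsLocalMax (fun z => eval z H) y :=
      (hmax.on_subset subset_closure).isLocalMax ((hO x hxF).mem_nhds hyW)
    have hup : Function.update y c (y c) = y := Function.update_eq_self c y
    have hcu : ContinuousAt (fun s : ℝ => Function.update y c s) (y c) := by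
      exact (continuous_const.update c continuous_id).continuousAt
    have hloc2 : IsLocalMax (fun s : ℝ => eval (Function.update y c s) H) (y c) := by
      have h1 : ∀ᶠ z in 𝓝 (Function.update y c (y c)), eval z H ≤ eval y H := by
        rw [hup]; exact hloc
      have h2 := hcu.eventually h1
      filter_upwards [h2] with s hs
      rw [hup]
      exact hs
    have hd := hloc2.hasDerivAt_eq_zero (crit_deriv H y c (y c))
    rw [hup] at hd
    have hpd : pderiv c H = pderiv c (Q ^ 2) -
        C e * (((2 * D + 2 : ℕ) : MvPolynomial (Fin 3) ℝ) * X c ^ (2 * D + 1)) := by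
      rw [hH, map_sub, pderiv_C_mul, map_sum, Finset.sum_eq_single c]
      · rw [pderiv_pow (f := X c) (n := 2 * D + 2), pderiv_X_self, mul_one]
        rfl
      · intro b _ hbc
        rw [pderiv_pow, pderiv_X_of_ne hbc, mul_zero]
      · intro h
        exact absurd (Finset.mem_univ _) h
    rw [hpd] at hd
    simp only [map_sub, map_mul, map_pow, eval_C, eval_X, map_natCast] at hd
    push_cast at hd
    linarith
  choose! Y hYW hY using hcrit
  have hinj : Set.InjOn Y F := by
    intro a ha b hb' hab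
    by_contra hne'
    exact Set.disjoint_left.1 (hdis a ha b hb' hne') (hYW a ha) (hab ▸ hYW b hb')
  have hcard := OMin.bezout_fin (2 * D + 1) (fun c : Fin 3 => pderiv c (Q ^ 2)) (fun c => by
    refine (crit_deg c _).trans_lt ?_
    have := totalDegree_pow Q 2
    omega) (-(e * (2 * D + 2))) (by
      have : 0 < e * (2 * (D : ℝ) + 2) := by positivity
      exact neg_ne_zero.2 this.ne') (F.image Y) (by
      intro x hxs c
      obtain ⟨a, ha, rfl⟩ := Finset.mem_image.1 hxs
      exact hY a ha c)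
  rw [Finset.card_image_of_injOn hinj] at hcard
  simpa using! hcard
-- END crit

/-- the shrunken sign cell of `x` in the box -/
def Cell {κ : Type} (P : κ → (Fin 3 → ℝ) → ℝ) (α β x : Fin 3 → ℝ) (δ ε : ℝ) : Set (Fin 3 → ℝ) :=
  {z | (∀ c, α c + δ ≤ z c ∧ z c ≤ β c - δ) ∧ ∀ l, (P l x = 0 → |P l z| ≤ ε) ∧
    (0 < P l x → δ ≤ P l z) ∧ (P l x < 0 → P l z ≤ -δ)}

-- BEGIN sep
private theorem sep_compact {κ : Type} (P : κ → (Fin 3 → ℝ) → ℝ) (hP : ∀ l, Continuous (P l))
    (α β x : Fin 3 → ℝ) (δ ε : ℝ) : IsCompact (Cell P α β x δ ε) := by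
  have hsub : Cell P α β x δ ε ⊆ Set.Icc (fun c => α c + δ) (fun c => β c - δ) := by
    intro z hz
    exact ⟨fun c => (hz.1 c).1, fun c => (hz.1 c).2⟩
  refine IsCompact.of_isClosed_subset isCompact_Icc ?_ hsub
  have h1 : Cell P α β x δ ε = (⋂ c, {z | α c + δ ≤ z c ∧ z c ≤ β c - δ}) ∩
      ⋂ l, ({z | P l x = 0 → |P l z| ≤ ε} ∩ ({z | 0 < P l x → δ ≤ P l z} ∩
        {z | P l x < 0 → P l z ≤ -δ})) := by
    ext z
    simp only [Cell, Set.mem_setOf_eq, Set.mem_inter_iff, Set.mem_iInter]
  rw [h1]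
  refine IsClosed.inter (isClosed_iInter fun c => ?_) (isClosed_iInter fun l => ?_)
  · exact (isClosed_le continuous_const (continuous_apply c)).inter
      (isClosed_le (continuous_apply c) continuous_const)
  · refine IsClosed.inter ?_ (IsClosed.inter ?_ ?_)
    · by_cases h : P l x = 0
      · simp only [h, forall_const]
        exact isClosed_le (hP l).abs continuous_const
      · simp only [h, false_imp_iff, Set.setOf_true]
        exact isClosed_univ
    · by_cases h : 0 < P l x
      · simp only [h, forall_const]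
        exact isClosed_le continuous_const (hP l)
      · simp only [h, false_imp_iff, Set.setOf_true]
        exact isClosed_univ
    · by_cases h : P l x < 0
      · simp only [h, forall_const]
        exact isClosed_le (hP l) continuous_const
      · simp only [h, false_imp_iff, Set.setOf_true]
        exact isClosed_univ

/-- `K = Cell P α β x δ 0` is compact, contains `x` and `y` and is contained in the sign set of `hsep`. The point `y` is
not in the component of `x` in `K` (`connectedComponentIn_mono`), so (compact space `K`,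
`connectedComponent_eq_iInter_isClopen`) `K` is the union of two disjoint compact sets containing `x` and `y`, and these are
contained in disjoint open sets `V0`, `V1` (`IsCompact.separatedNhds`/`SeparatedNhds`). The compact sets `Cell P α β x δ ε`
decrease to `K ⊆ V0 ∪ V1` for `ε → 0`. -/
theorem separate {κ : Type} [Finite κ] (P : κ → (Fin 3 → ℝ) → ℝ) (hP : ∀ l, Continuous (P l))
    (α β x y : Fin 3 → ℝ) (δ : ℝ) (hδ : 0 < δ)
    (hxc : x ∈ Cell P α β x δ 0) (hyc : y ∈ Cell P α β x δ 0)
    (hsep : y ∉ connectedComponentIn {z | (∀ c, α c < z c ∧ z c < β c) ∧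
      ∀ l, SignType.sign (P l z) = SignType.sign (P l x)} x) :
    ∃ V0 V1 : Set (Fin 3 → ℝ), IsOpen V0 ∧ IsOpen V1 ∧ Disjoint V0 V1 ∧ x ∈ V0 ∧ y ∈ V1 ∧
      ∃ ε0 : ℝ, 0 < ε0 ∧ ∀ ε, 0 < ε → ε ≤ ε0 → Cell P α β x δ ε ⊆ V0 ∪ V1 := by
  classical
  cases nonempty_fintype κ
  set K : Set (Fin 3 → ℝ) := Cell P α β x δ 0 with hK
  have hKc : IsCompact K := sep_compact P hP α β x δ 0
  have hKU : K ⊆ {z | (∀ c, α c < z c ∧ z c < β c) ∧
      ∀ l, SignType.sign (P l z) = SignType.sign (P l x)} := by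
    intro z hz
    refine ⟨fun c => ⟨by linarith [(hz.1 c).1], by linarith [(hz.1 c).2]⟩, fun l => ?_⟩
    obtain ⟨h1, h2, h3⟩ := hz.2 l
    rcases lt_trichotomy (P l x) 0 with h | h | h
    · have h4 : P l z < 0 := by linarith [h3 h]
      rw [sign_neg h, sign_neg h4]
    · have h4 : P l z = 0 := abs_nonpos_iff.1 (h1 h)
      rw [h, h4]
    · have h4 : 0 < P l z := by linarith [h2 h]
      rw [sign_pos h, sign_pos h4]
  have hyK : y ∉ connectedComponentIn K x := fun h => hsep (connectedComponentIn_mono x hKU h)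
  rw [connectedComponentIn_eq_image hxc] at hyK
  have hyK' : (⟨y, hyc⟩ : K) ∉ connectedComponent (⟨x, hxc⟩ : K) := fun h =>
    hyK ⟨⟨y, hyc⟩, h, rfl⟩
  have : CompactSpace K := isCompact_iff_compactSpace.1 hKc
  rw [connectedComponent_eq_iInter_isClopen, Set.mem_iInter, not_forall] at hyK'
  obtain ⟨⟨s, hs, hxs⟩, hys⟩ := hyK'
  simp only at hys
  have hA : IsCompact ((Subtype.val : K → (Fin 3 → ℝ)) '' s) :=
    hs.isClosed.isCompact.image continuous_subtype_val
  have hB : IsCompact ((Subtype.val : K → (Fin 3 → ℝ)) '' sᶜ) :=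
    hs.compl.isClosed.isCompact.image continuous_subtype_val
  have hAB : Disjoint ((Subtype.val : K → (Fin 3 → ℝ)) '' s)
      ((Subtype.val : K → (Fin 3 → ℝ)) '' sᶜ) :=
    (Set.disjoint_image_iff Subtype.val_injective).2 disjoint_compl_right
  obtain ⟨V0, V1, hV0, hV1, hAV, hBV, hdis⟩ := SeparatedNhds.of_isCompact_isCompact hA hB hAB
  refine ⟨V0, V1, hV0, hV1, hdis, hAV ⟨⟨x, hxc⟩, hxs, rfl⟩, hBV ⟨⟨y, hyc⟩, hys, rfl⟩, ?_⟩
  have hKV : K ⊆ V0 ∪ V1 := by
    intro z hz
    by_cases h : (⟨z, hz⟩ : K) ∈ s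
    · exact Or.inl (hAV ⟨⟨z, hz⟩, h, rfl⟩)
    · exact Or.inr (hBV ⟨⟨z, hz⟩, h, rfl⟩)
  set C : Set (Fin 3 → ℝ) := Cell P α β x δ 1 \ (V0 ∪ V1) with hC
  have hCc : IsCompact C := (sep_compact P hP α β x δ 1).diff (hV0.union hV1)
  set g : (Fin 3 → ℝ) → ℝ := fun z => ∑ l, if P l x = 0 then |P l z| else 0 with hg
  have hgc : Continuous g := by
    refine continuous_finset_sum _ (fun l _ => ?_)
    by_cases h : P l x = 0
    · simp only [h, if_true]
      exact (hP l).abs
    · simp only [h, if_false]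
      exact continuous_const
  rcases C.eq_empty_or_nonempty with hCe | hCn
  · refine ⟨1, one_pos, fun ε _ hε1 z hz => ?_⟩
    by_contra hzV
    have : z ∈ C := by
      refine ⟨⟨hz.1, fun l => ⟨fun h => le_trans ((hz.2 l).1 h) hε1, (hz.2 l).2⟩⟩, hzV⟩
    rw [hCe] at this
    exact this
  · obtain ⟨z0, hz0, hmin⟩ := hCc.exists_isMinOn hCn hgc.continuousOn
    have hterm : ∀ z, ∀ l : κ, (0 : ℝ) ≤ if P l x = 0 then |P l z| else 0 := by
      intro z l
      split_ifs
      · exact abs_nonneg _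
      · exact le_rfl
    have hm : 0 < g z0 := by
      rcases (Finset.sum_nonneg (fun l _ => hterm z0 l)).lt_or_eq with h | h
      · exact h
      · exfalso
        refine hz0.2 (hKV ⟨hz0.1.1, fun l => ⟨fun hl => ?_, (hz0.1.2 l).2⟩⟩)
        have h1 := (Finset.sum_eq_zero_iff_of_nonneg (fun l _ => hterm z0 l)).1 h.symm l
          (Finset.mem_univ l)
        rw [if_pos hl] at h1
        exact h1.le
    refine ⟨min 1 (g z0 / (Fintype.card κ + 1)), lt_min one_pos (by positivity),
      fun ε hε hε1 z hz => ?_⟩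
    by_contra hzV
    have hzC : z ∈ C := by
      refine ⟨⟨hz.1, fun l => ⟨fun h => le_trans ((hz.2 l).1 h) (le_trans hε1 (min_le_left _ _)),
        (hz.2 l).2⟩⟩, hzV⟩
    have h1 : g z0 ≤ g z := hmin hzC
    have h2 : g z ≤ Fintype.card κ * ε := by
      calc g z ≤ ∑ _l : κ, ε := by
            refine Finset.sum_le_sum (fun l _ => ?_)
            split_ifs with h
            · exact (hz.2 l).1 h
            · exact hε.le
        _ = Fintype.card κ * ε := by simp
    have h3 : ε ≤ g z0 / (Fintype.card κ + 1) := le_trans hε1 (min_le_right _ _)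
    have h4 : ε * (Fintype.card κ + 1) ≤ g z0 := (le_div_iff₀ (by positivity)).1 h3
    have h5 : ε * (Fintype.card κ + 1) = Fintype.card κ * ε + ε := by ring
    linarith
-- END sep

-- BEGIN war
/-- the degree of the product polynomial of `warren` -/
private theorem war_deg {κ : Type} [Fintype κ] (P : κ → MvPolynomial (Fin 3) ℝ)
    (hP : ∀ l, (P l).totalDegree ≤ 2) (a b : Fin 3 → ℝ) (s t : ℝ) :
    ((∏ c, (X c - C (a c)) * (X c - C (b c))) *
      ∏ l, (P l ^ 2 - C s) * (P l ^ 2 - C t)).totalDegree ≤ 6 + 8 * Fintype.card κ := by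
  have h1 : ∀ (c : Fin 3) (r : ℝ), (X c - C r : MvPolynomial (Fin 3) ℝ).totalDegree ≤ 1 := by
    intro c r
    refine (totalDegree_sub _ _).trans ?_
    rw [totalDegree_X, totalDegree_C]
    exact le_of_eq (max_eq_left (Nat.zero_le 1))
  have h2 : ∀ (l : κ) (r : ℝ), (P l ^ 2 - C r : MvPolynomial (Fin 3) ℝ).totalDegree ≤ 4 := by
    intro l r
    refine (totalDegree_sub _ _).trans ?_
    rw [totalDegree_C]
    refine max_le ((totalDegree_pow _ _).trans ?_) (Nat.zero_le _)
    have := hP l
    omega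
  have h3 : (∏ c : Fin 3, (X c - C (a c)) * (X c - C (b c)) :
      MvPolynomial (Fin 3) ℝ).totalDegree ≤ 6 := by
    refine (totalDegree_finset_prod _ _).trans ?_
    refine (Finset.sum_le_card_nsmul _ _ 2 fun c _ => ?_).trans ?_
    · exact (totalDegree_mul _ _).trans (by have := h1 c (a c); have := h1 c (b c); omega)
    · simp
  have h4 : (∏ l, (P l ^ 2 - C s) * (P l ^ 2 - C t) :
      MvPolynomial (Fin 3) ℝ).totalDegree ≤ 8 * Fintype.card κ := by
    refine (totalDegree_finset_prod _ _).trans ?_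
    refine (Finset.sum_le_card_nsmul _ _ 8 fun l _ => ?_).trans ?_
    · exact (totalDegree_mul _ _).trans (by have := h2 l s; have := h2 l t; omega)
    · simp [mul_comm]
  exact (totalDegree_mul _ _).trans (by omega)

/-- Choose `δ > 0` with `α c + 2 δ < x c < β c - 2 δ` and `2 δ < |P l x|` or `P l x = 0` for all `x ∈ F`. For every pair
`x ≠ y` in `F` with the same signs take `V0 (x,y)`, `V1 (x,y)`, `ε0` of `separate`; let `0 < ε < δ` be smaller than all `ε0`.
Put `W x` = the set of `z` with `α c + δ < z c < β c - δ`, `|P l z| < ε` if `P l x = 0`, `δ < P l z` if `0 < P l x`,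
`P l z < -δ` if `P l x < 0`, and `z ∈ V0 (x,y) ∩ V1 (y,x)` for every `y ≠ x` in `F` with the same signs. These sets are open,
bounded, disjoint (different signs: clear; same signs: `W x ⊆ V0 (x,y)`, `W y ⊆ V1 (x,y)`), `x ∈ W x`. The polynomial
`Q = ∏ c, (X c - (α c + δ)) * (X c - (β c - δ)) * ∏ l, (P l ^ 2 - ε ^ 2) * (P l ^ 2 - δ ^ 2)` (degree `≤ 6 + 8 card κ`) is not
zero at `x`, and zero on `frontier (W x)`: a point `z` of `closure (W x)` with `eval z Q ≠ 0` satisfies all strict inequalities,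
is in `Cell P α β x δ ε ⊆ V0 ∪ V1` and in `closure V0`, so in `V0` (`Disjoint.closure_left`), so in the open set `W x`.
Then `crit_count` with `D = 6 + 8 card κ`. -/
theorem warren {κ : Type} [Fintype κ] (P : κ → MvPolynomial (Fin 3) ℝ)
    (hP : ∀ l, (P l).totalDegree ≤ 2) (α β : Fin 3 → ℝ) (F : Finset (Fin 3 → ℝ))
    (hF : ∀ x ∈ F, ∀ c, α c < x c ∧ x c < β c)
    (hsep : ∀ x ∈ F, ∀ y ∈ F, x ≠ y →
      (∀ l, SignType.sign (eval y (P l)) = SignType.sign (eval x (P l))) →
      y ∉ connectedComponentIn {z | (∀ c, α c < z c ∧ z c < β c) ∧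
        ∀ l, SignType.sign (eval z (P l)) = SignType.sign (eval x (P l))} x) :
    F.card ≤ (16 * Fintype.card κ + 13) ^ 3 := by
  classical
  set p : κ → (Fin 3 → ℝ) → ℝ := fun l z => eval z (P l) with hpdef
  have hpc : ∀ l, Continuous (p l) := fun l => MvPolynomial.continuous_eval (P l)
  -- the number `δ`
  obtain ⟨δ, hδ, hδb, hδp⟩ : ∃ δ : ℝ, 0 < δ ∧
      (∀ x ∈ F, ∀ c, α c + 2 * δ < x c ∧ x c < β c - 2 * δ) ∧
      ∀ x ∈ F, ∀ l, p l x ≠ 0 → 2 * δ < |p l x| := by
    have e1 : ∀ᶠ δ : ℝ in 𝓝[>] 0, ∀ x ∈ F, ∀ c, α c + 2 * δ < x c ∧ x c < β c - 2 * δ := by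
      rw [Filter.eventually_all_finset]
      intro x hx
      rw [Filter.eventually_all]
      intro c
      have h1 : Tendsto (fun δ : ℝ => α c + 2 * δ) (𝓝[>] 0) (𝓝 (α c + 2 * 0)) :=
        Tendsto.mono_left (Continuous.tendsto (by fun_prop) _) nhdsWithin_le_nhds
      have h2 : Tendsto (fun δ : ℝ => β c - 2 * δ) (𝓝[>] 0) (𝓝 (β c - 2 * 0)) :=
        Tendsto.mono_left (Continuous.tendsto (by fun_prop) _) nhdsWithin_le_nhds
      have h3 := h1.eventually_lt_const (u := x c) (by simpa using (hF x hx c).1)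
      have h4 := h2.eventually_const_lt (u := x c) (by simpa using (hF x hx c).2)
      exact h3.and h4
    have e2 : ∀ᶠ δ : ℝ in 𝓝[>] 0, ∀ x ∈ F, ∀ l, p l x ≠ 0 → 2 * δ < |p l x| := by
      rw [Filter.eventually_all_finset]
      intro x hx
      rw [Filter.eventually_all]
      intro l
      by_cases h : p l x = 0
      · exact Filter.Eventually.of_forall fun δ h' => absurd h h'
      have h1 : Tendsto (fun δ : ℝ => 2 * δ) (𝓝[>] 0) (𝓝 (2 * 0)) :=
        Tendsto.mono_left (Continuous.tendsto (by fun_prop) _) nhdsWithin_le_nhds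
      have h3 := h1.eventually_lt_const (u := |p l x|) (by simpa using h)
      exact h3.mono fun δ hδ _ => hδ
    obtain ⟨δ, h1, h2, h3⟩ := (e1.and (e2.and self_mem_nhdsWithin)).exists
    exact ⟨δ, h3, h1, h2⟩
  have hself : ∀ x ∈ F, ∀ y ∈ F, (∀ l, SignType.sign (p l y) = SignType.sign (p l x)) →
      y ∈ Cell p α β x δ 0 := by
    intro x hx y hy hs
    refine ⟨fun c => ?_, fun l => ⟨fun h => ?_, fun h => ?_, fun h => ?_⟩⟩
    · have := hδb y hy c
      constructor <;> linarith [this.1, this.2]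
    · have h1 := hs l
      rw [h, sign_zero, sign_eq_zero_iff] at h1
      rw [h1, abs_zero]
    · have h1 := hs l
      rw [sign_pos h, sign_eq_one_iff] at h1
      have h2 := hδp y hy l h1.ne'
      rw [abs_of_pos h1] at h2
      linarith
    · have h1 := hs l
      rw [sign_neg h, sign_eq_neg_one_iff] at h1
      have h2 := hδp y hy l h1.ne
      rw [abs_of_neg h1] at h2
      linarith
  have key : ∀ x y : Fin 3 → ℝ, ∃ V0 V1 : Set (Fin 3 → ℝ), ∃ ε0 : ℝ, 0 < ε0 ∧ IsOpen V0 ∧
      IsOpen V1 ∧ Disjoint V0 V1 ∧ (x ∈ F → y ∈ F → x ≠ y →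
        (∀ l, SignType.sign (p l y) = SignType.sign (p l x)) → x ∈ V0 ∧ y ∈ V1 ∧
        ∀ ε, 0 < ε → ε ≤ ε0 → Cell p α β x δ ε ⊆ V0 ∪ V1) := by
    intro x y
    by_cases h : x ∈ F ∧ y ∈ F ∧ x ≠ y ∧ ∀ l, SignType.sign (p l y) = SignType.sign (p l x)
    · obtain ⟨hx, hy, hxy, hs⟩ := h
      obtain ⟨V0, V1, hV0, hV1, hd, hxV, hyV, ε0, hε0, hc⟩ := separate p hpc α β x y δ hδ
        (hself x hx x hx fun _ => rfl) (hself x hx y hy hs) (hsep x hx y hy hxy hs)
      exact ⟨V0, V1, ε0, hε0, hV0, hV1, hd, fun _ _ _ _ => ⟨hxV, hyV, hc⟩⟩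
    · refine ⟨∅, ∅, 1, one_pos, isOpen_empty, isOpen_empty, disjoint_bot_left,
        fun h1 h2 h3 h4 => absurd ⟨h1, h2, h3, h4⟩ h⟩
  choose V0 V1 E0 hE0 hV0 hV1 hVd hV using key
  obtain ⟨ε, hε, hεδ, hεE⟩ : ∃ ε : ℝ, 0 < ε ∧ ε < δ ∧ ∀ x ∈ F, ∀ y ∈ F, ε ≤ E0 x y := by
    have e1 : ∀ᶠ ε : ℝ in 𝓝[>] 0, ε < δ :=
      (nhdsWithin_le_nhds (Iio_mem_nhds hδ) : Iio δ ∈ 𝓝[>] (0 : ℝ))
    have e2 : ∀ᶠ ε : ℝ in 𝓝[>] 0, ∀ x ∈ F, ∀ y ∈ F, ε ≤ E0 x y := by
      rw [Filter.eventually_all_finset]
      intro x hx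
      rw [Filter.eventually_all_finset]
      intro y hy
      exact (nhdsWithin_le_nhds (Iic_mem_nhds (hE0 x y)) : Iic (E0 x y) ∈ 𝓝[>] (0 : ℝ))
    obtain ⟨ε, h1, h2, h3⟩ := (e1.and (e2.and self_mem_nhdsWithin)).exists
    exact ⟨ε, h3, h1, h2⟩
  let A : (Fin 3 → ℝ) → Set (Fin 3 → ℝ) := fun x =>
    {z | (∀ c, α c + δ < z c ∧ z c < β c - δ) ∧ ∀ l, (p l x = 0 → |p l z| < ε) ∧
      (0 < p l x → δ < p l z) ∧ (p l x < 0 → p l z < -δ)}
  let B : (Fin 3 → ℝ) → (Fin 3 → ℝ) → Set (Fin 3 → ℝ) := fun x y =>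
    if y ≠ x ∧ ∀ l, SignType.sign (p l y) = SignType.sign (p l x) then V0 x y ∩ V1 y x else univ
  let W : (Fin 3 → ℝ) → Set (Fin 3 → ℝ) := fun x => A x ∩ ⋂ y ∈ F, B x y
  have hAo : ∀ x, IsOpen (A x) := by
    intro x
    refine IsOpen.inter ?_ ?_
    · show IsOpen {z : Fin 3 → ℝ | ∀ c, α c + δ < z c ∧ z c < β c - δ}
      rw [Set.setOf_forall]
      refine isOpen_iInter_of_finite fun c => ?_
      exact (isOpen_lt continuous_const (continuous_apply c)).inter
        (isOpen_lt (continuous_apply c) continuous_const)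
    · show IsOpen {z : Fin 3 → ℝ | ∀ l, (p l x = 0 → |p l z| < ε) ∧
        (0 < p l x → δ < p l z) ∧ (p l x < 0 → p l z < -δ)}
      rw [Set.setOf_forall]
      refine isOpen_iInter_of_finite fun l => ?_
      refine IsOpen.inter ?_ (IsOpen.inter ?_ ?_)
      · by_cases h : p l x = 0
        · have : {z : Fin 3 → ℝ | p l x = 0 → |p l z| < ε} = {z | |p l z| < ε} := by
            ext z; simp [h]
          show IsOpen {z : Fin 3 → ℝ | p l x = 0 → |p l z| < ε}
          rw [this]
          exact isOpen_lt (hpc l).abs continuous_const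
        · have : {z : Fin 3 → ℝ | p l x = 0 → |p l z| < ε} = univ := by
            ext z; simp [h]
          show IsOpen {z : Fin 3 → ℝ | p l x = 0 → |p l z| < ε}
          rw [this]
          exact isOpen_univ
      · by_cases h : 0 < p l x
        · have : {z : Fin 3 → ℝ | 0 < p l x → δ < p l z} = {z | δ < p l z} := by
            ext z; simp [h]
          show IsOpen {z : Fin 3 → ℝ | 0 < p l x → δ < p l z}
          rw [this]
          exact isOpen_lt continuous_const (hpc l)
        · have : {z : Fin 3 → ℝ | 0 < p l x → δ < p l z} = univ := by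
            ext z; simp [h]
          show IsOpen {z : Fin 3 → ℝ | 0 < p l x → δ < p l z}
          rw [this]
          exact isOpen_univ
      · by_cases h : p l x < 0
        · have : {z : Fin 3 → ℝ | p l x < 0 → p l z < -δ} = {z | p l z < -δ} := by
            ext z; simp [h]
          show IsOpen {z : Fin 3 → ℝ | p l x < 0 → p l z < -δ}
          rw [this]
          exact isOpen_lt (hpc l) continuous_const
        · have : {z : Fin 3 → ℝ | p l x < 0 → p l z < -δ} = univ := by
            ext z; simp [h]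
          show IsOpen {z : Fin 3 → ℝ | p l x < 0 → p l z < -δ}
          rw [this]
          exact isOpen_univ
  have hBo : ∀ x y, IsOpen (B x y) := by
    intro x y
    by_cases h : y ≠ x ∧ ∀ l, SignType.sign (p l y) = SignType.sign (p l x)
    · have : B x y = V0 x y ∩ V1 y x := if_pos h
      rw [this]
      exact (hV0 x y).inter (hV1 y x)
    · have : B x y = univ := if_neg h
      rw [this]
      exact isOpen_univ
  have hWo : ∀ x, IsOpen (W x) := fun x =>
    (hAo x).inter (isOpen_biInter_finset fun y _ => hBo x y)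
  have hclosed : ∀ x, IsClosed (Cell p α β x δ ε) := by
    intro x
    refine IsClosed.inter ?_ ?_
    · show IsClosed {z : Fin 3 → ℝ | ∀ c, α c + δ ≤ z c ∧ z c ≤ β c - δ}
      rw [Set.setOf_forall]
      refine isClosed_iInter fun c => ?_
      exact (isClosed_le continuous_const (continuous_apply c)).inter
        (isClosed_le (continuous_apply c) continuous_const)
    · show IsClosed {z : Fin 3 → ℝ | ∀ l, (p l x = 0 → |p l z| ≤ ε) ∧
        (0 < p l x → δ ≤ p l z) ∧ (p l x < 0 → p l z ≤ -δ)}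
      rw [Set.setOf_forall]
      refine isClosed_iInter fun l => ?_
      refine IsClosed.inter ?_ (IsClosed.inter ?_ ?_)
      · show IsClosed {z : Fin 3 → ℝ | p l x = 0 → |p l z| ≤ ε}
        rw [Set.setOf_forall]
        exact isClosed_iInter fun _ => isClosed_le (hpc l).abs continuous_const
      · show IsClosed {z : Fin 3 → ℝ | 0 < p l x → δ ≤ p l z}
        rw [Set.setOf_forall]
        exact isClosed_iInter fun _ => isClosed_le continuous_const (hpc l)
      · show IsClosed {z : Fin 3 → ℝ | p l x < 0 → p l z ≤ -δ}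
        rw [Set.setOf_forall]
        exact isClosed_iInter fun _ => isClosed_le (hpc l) continuous_const
  have hACell : ∀ x, A x ⊆ Cell p α β x δ ε := by
    rintro x z ⟨h1, h2⟩
    exact ⟨fun c => ⟨(h1 c).1.le, (h1 c).2.le⟩, fun l => ⟨fun h => ((h2 l).1 h).le,
      fun h => ((h2 l).2.1 h).le, fun h => ((h2 l).2.2 h).le⟩⟩
  have hcellsame : ∀ x y z, (∀ l, SignType.sign (p l y) = SignType.sign (p l x)) →
      z ∈ Cell p α β x δ ε → z ∈ Cell p α β y δ ε := by
    rintro x y z hs ⟨h1, h2⟩
    refine ⟨h1, fun l => ⟨fun h => ?_, fun h => ?_, fun h => ?_⟩⟩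
    · have h3 := hs l
      rw [h, sign_zero] at h3
      exact (h2 l).1 (sign_eq_zero_iff.1 h3.symm)
    · have h3 := hs l
      rw [sign_pos h] at h3
      exact (h2 l).2.1 (sign_eq_one_iff.1 h3.symm)
    · have h3 := hs l
      rw [sign_neg h] at h3
      exact (h2 l).2.2 (sign_eq_neg_one_iff.1 h3.symm)
  let Q : MvPolynomial (Fin 3) ℝ := (∏ c, (X c - C (α c + δ)) * (X c - C (β c - δ))) *
      ∏ l, (P l ^ 2 - C (ε ^ 2)) * (P l ^ 2 - C (δ ^ 2))
  have hQ : ∀ z, eval z Q = (∏ c, (z c - (α c + δ)) * (z c - (β c - δ))) *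
      ∏ l, ((p l z) ^ 2 - ε ^ 2) * ((p l z) ^ 2 - δ ^ 2) := by
    intro z
    simp only [Q, map_mul, map_prod, map_sub, map_pow, eval_X, eval_C]
    rfl
  have hxW : ∀ x ∈ F, x ∈ W x := by
    intro x hx
    refine ⟨⟨fun c => ?_, fun l => ⟨fun h => ?_, fun h => ?_, fun h => ?_⟩⟩, ?_⟩
    · have := hδb x hx c
      constructor <;> linarith [this.1, this.2]
    · rw [h, abs_zero]; exact hε
    · have h2 := hδp x hx l h.ne'
      rw [abs_of_pos h] at h2
      linarith
    · have h2 := hδp x hx l h.ne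
      rw [abs_of_neg h] at h2
      linarith
    · refine mem_iInter₂.2 fun y hy => ?_
      by_cases h : y ≠ x ∧ ∀ l, SignType.sign (p l y) = SignType.sign (p l x)
      · have hB : B x y = V0 x y ∩ V1 y x := if_pos h
        rw [hB]
        exact ⟨(hV x y hx hy h.1.symm h.2).1, (hV y x hy hx h.1 fun l => (h.2 l).symm).2.1⟩
      · have hB : B x y = univ := if_neg h
        rw [hB]
        exact mem_univ _
  have hfr : ∀ x ∈ F, ∀ z ∈ frontier (W x), eval z Q = 0 := by
    intro x hx z hz
    by_contra hne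
    have hzc : z ∈ closure (W x) := hz.1
    have hznW : z ∉ W x := by
      intro h
      exact hz.2 (by rwa [(hWo x).interior_eq])
    have hzCell : z ∈ Cell p α β x δ ε :=
      closure_minimal (inter_subset_left.trans (hACell x)) (hclosed x) hzc
    rw [hQ] at hne
    have hne1 := left_ne_zero_of_mul hne
    have hne2 := right_ne_zero_of_mul hne
    rw [Finset.prod_ne_zero_iff] at hne1 hne2
    apply hznW
    refine ⟨⟨fun c => ?_, fun l => ⟨fun h => ?_, fun h => ?_, fun h => ?_⟩⟩, ?_⟩
    · have h1 := hne1 c (Finset.mem_univ c)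
      have h2 := left_ne_zero_of_mul h1
      have h3 := right_ne_zero_of_mul h1
      have h4 := hzCell.1 c
      exact ⟨lt_of_le_of_ne h4.1 fun h => h2 (by linarith),
        lt_of_le_of_ne h4.2 fun h => h3 (by linarith)⟩
    · have h1 := left_ne_zero_of_mul (hne2 l (Finset.mem_univ l))
      refine lt_of_le_of_ne ((hzCell.2 l).1 h) fun h2 => h1 ?_
      rw [← sq_abs (p l z), h2]
      ring
    · have h1 := right_ne_zero_of_mul (hne2 l (Finset.mem_univ l))
      refine lt_of_le_of_ne ((hzCell.2 l).2.1 h) fun h2 => h1 ?_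
      rw [← h2]
      ring
    · have h1 := right_ne_zero_of_mul (hne2 l (Finset.mem_univ l))
      refine lt_of_le_of_ne ((hzCell.2 l).2.2 h) fun h2 => h1 ?_
      rw [h2]
      ring
    · refine mem_iInter₂.2 fun y hy => ?_
      by_cases h : y ≠ x ∧ ∀ l, SignType.sign (p l y) = SignType.sign (p l x)
      · have hB : B x y = V0 x y ∩ V1 y x := if_pos h
        have hzB : z ∈ closure (V0 x y ∩ V1 y x) := by
          refine closure_mono ?_ hzc
          rw [← hB]
          exact fun w hw => mem_iInter₂.1 hw.2 y hy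
        rw [hB]
        constructor
        · have h1 : z ∈ V0 x y ∪ V1 x y :=
            (hV x y hx hy h.1.symm h.2).2.2 ε hε (hεE x hx y hy) hzCell
          rcases h1 with h1 | h1
          · exact h1
          · exfalso
            have h2 : z ∈ closure (V0 x y) := closure_mono inter_subset_left hzB
            have h3 := (hVd x y).closure_left (hV1 x y)
            exact Set.disjoint_left.1 h3 h2 h1
        · have h1 : z ∈ V0 y x ∪ V1 y x :=
            (hV y x hy hx h.1 fun l => (h.2 l).symm).2.2 ε hε (hεE y hy x hx)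
              (hcellsame x y z h.2 hzCell)
          rcases h1 with h1 | h1
          · exfalso
            have h2 : z ∈ closure (V1 y x) := closure_mono inter_subset_right hzB
            have h3 := (hVd y x).closure_right (hV0 y x)
            exact Set.disjoint_left.1 h3 h1 h2
          · exact h1
      · have hB : B x y = univ := if_neg h
        rw [hB]
        exact mem_univ _
  have hQx : ∀ x ∈ F, eval x Q ≠ 0 := by
    intro x hx
    rw [hQ]
    refine mul_ne_zero (Finset.prod_ne_zero_iff.2 fun c _ => mul_ne_zero ?_ ?_)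
      (Finset.prod_ne_zero_iff.2 fun l _ => mul_ne_zero ?_ ?_)
    · have := (hδb x hx c).1
      intro h
      linarith
    · have := (hδb x hx c).2
      intro h
      linarith
    · by_cases h : p l x = 0
      · rw [h]
        have : 0 < ε ^ 2 := by positivity
        intro h'
        linarith
      · have h2 := hδp x hx l h
        have h3 : ε ^ 2 < |p l x| ^ 2 := by
          apply pow_lt_pow_left₀ _ hε.le two_ne_zero
          linarith
        rw [sq_abs] at h3
        intro h'
        linarith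
    · by_cases h : p l x = 0
      · rw [h]
        have : 0 < δ ^ 2 := by positivity
        intro h'
        linarith
      · have h2 := hδp x hx l h
        have h3 : δ ^ 2 < |p l x| ^ 2 := by
          apply pow_lt_pow_left₀ _ hδ.le two_ne_zero
          linarith
        rw [sq_abs] at h3
        intro h'
        linarith
  have hWb : ∀ x ∈ F, Bornology.IsBounded (W x) := by
    intro x _
    refine (Metric.isBounded_Icc α β).subset ?_
    rintro z ⟨⟨h1, _⟩, _⟩
    exact ⟨fun c => by linarith [(h1 c).1], fun c => by linarith [(h1 c).2]⟩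
  have hdis : ∀ x ∈ F, ∀ y ∈ F, x ≠ y → Disjoint (W x) (W y) := by
    intro x hx y hy hxy
    rw [Set.disjoint_left]
    rintro z ⟨⟨_, hz1⟩, hz2⟩ ⟨⟨_, hz3⟩, hz4⟩
    by_cases hs : ∀ l, SignType.sign (p l y) = SignType.sign (p l x)
    · have h1 := mem_iInter₂.1 hz2 y hy
      have hB : B x y = V0 x y ∩ V1 y x := if_pos ⟨hxy.symm, hs⟩
      rw [hB] at h1
      have h2 := mem_iInter₂.1 hz4 x hx
      have hB' : B y x = V0 y x ∩ V1 x y := if_pos ⟨hxy, fun l => (hs l).symm⟩
      rw [hB'] at h2
      exact Set.disjoint_left.1 (hVd x y) h1.1 h2.2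
    · push Not at hs
      obtain ⟨l, hl⟩ := hs
      rcases lt_trichotomy (p l x) 0 with h | h | h <;>
        rcases lt_trichotomy (p l y) 0 with h' | h' | h'
      · exact hl (by rw [sign_neg h, sign_neg h'])
      · have h1 := (hz1 l).2.2 h
        have h2 := abs_lt.1 ((hz3 l).1 h')
        linarith [h2.1]
      · have h1 := (hz1 l).2.2 h
        have h2 := (hz3 l).2.1 h'
        linarith
      · have h1 := abs_lt.1 ((hz1 l).1 h)
        have h2 := (hz3 l).2.2 h'
        linarith [h1.1]
      · exact hl (by rw [h, h'])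
      · have h1 := abs_lt.1 ((hz1 l).1 h)
        have h2 := (hz3 l).2.1 h'
        linarith [h1.2]
      · have h1 := (hz1 l).2.1 h
        have h2 := (hz3 l).2.2 h'
        linarith
      · have h1 := (hz1 l).2.1 h
        have h2 := abs_lt.1 ((hz3 l).1 h')
        linarith [h2.2]
      · exact hl (by rw [sign_pos h, sign_pos h'])
  have hfin := crit_count Q (6 + 8 * Fintype.card κ)
    (war_deg P hP (fun c => α c + δ) (fun c => β c - δ) (ε ^ 2) (δ ^ 2)) F W
    (fun x _ => hWo x) hxW hWb hfr hQx hdis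
  refine hfin.trans (le_of_eq ?_)
  ring
-- END war

-- BEGIN arg
theorem arg_aux {κ : Type} (f : κ → MvPolynomial (Fin 3) ℝ) (x z : Fin 3 → ℝ)
    (h : ∀ l : κ × κ, SignType.sign (eval z (f l.1 - f l.2)) =
      SignType.sign (eval x (f l.1 - f l.2))) :
    {m | ∀ m', eval z (f m) ≤ eval z (f m')} = {m | ∀ m', eval x (f m) ≤ eval x (f m')} := by
  have key : ∀ (y : Fin 3 → ℝ) (m m' : κ), eval y (f m) ≤ eval y (f m') ↔
      SignType.sign (eval y (f m - f m')) ≤ 0 := by
    intro y m m'
    rw [sign_nonpos_iff, map_sub, sub_nonpos]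
  ext m
  refine forall_congr' fun m' => ?_
  rw [key z, key x, h (m, m')]

/-- `warren` for the polynomials `f m - f m'`, index type `κ × κ`: equal signs of all of them give equal sets of minimisers,
so the sign set is contained in the set of `hsep` (`connectedComponentIn_mono`). -/
theorem argmin_count {κ : Type} [Fintype κ] (f : κ → MvPolynomial (Fin 3) ℝ)
    (hf : ∀ m, (f m).totalDegree ≤ 2) (α β : Fin 3 → ℝ) (F : Finset (Fin 3 → ℝ))
    (hF : ∀ x ∈ F, ∀ c, α c < x c ∧ x c < β c)
    (hsep : ∀ x ∈ F, ∀ y ∈ F, x ≠ y →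
      {m | ∀ m', eval y (f m) ≤ eval y (f m')} = {m | ∀ m', eval x (f m) ≤ eval x (f m')} →
      y ∉ connectedComponentIn {z | (∀ c, α c < z c ∧ z c < β c) ∧
        {m | ∀ m', eval z (f m) ≤ eval z (f m')} = {m | ∀ m', eval x (f m) ≤ eval x (f m')}} x) :
    F.card ≤ (16 * Fintype.card κ ^ 2 + 13) ^ 3 := by
  have h1 := warren (fun l : κ × κ => f l.1 - f l.2)
    (fun l => (totalDegree_sub _ _).trans (max_le (hf l.1) (hf l.2))) α β F hF (by
      intro x hx y hy hxy hs hc
      have hsub : {z : Fin 3 → ℝ | (∀ c, α c < z c ∧ z c < β c) ∧ ∀ l : κ × κ,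
          SignType.sign (eval z (f l.1 - f l.2)) = SignType.sign (eval x (f l.1 - f l.2))} ⊆
          {z | (∀ c, α c < z c ∧ z c < β c) ∧
        {m | ∀ m', eval z (f m) ≤ eval z (f m')} = {m | ∀ m', eval x (f m) ≤ eval x (f m')}} :=
        fun z hz => ⟨hz.1, arg_aux f x z hz.2⟩
      exact hsep x hx y hy hxy (arg_aux f x y hs) (connectedComponentIn_mono x hsub hc))
  rw [Fintype.card_prod, ← sq] at h1
  exact h1
-- END arg

end Pool.Agent.Vor
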