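import Pool.Agent.Vor.Main
import Pool.Agent.Vor.Warren

/-!
# The number of faces of the Voronoi diagram which meet the unit ball
-/

set_option autoImplicit false

namespace Pool.Agent.Vor

open MeasureTheory Set
open scoped ENNReal NNReal

/-- the set of the nearest lines -/
def Near {n : ℕ} (u p : Fin n → E) (x : E) : Set (Fin n) :=
  {i | ∀ j, Metric.infDist x (line (p i) (u i)) ≤ Metric.infDist x (line (p j) (u j))}

/-- the faces of the Voronoi diagram: the maximal connected sets on which `Near` is constant -/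
def Faces {n : ℕ} (u p : Fin n → E) : Set (Set E) :=
  {f | ∃ x, f = connectedComponentIn {y | Near u p y = Near u p x} x}

-- BEGIN pol
/-- `P = ∑ c, (X c - C (p c)) ^ 2 - (∑ c, C (u c) * (X c - C (p c))) ^ 2`;
`‖w - ⟪u,w⟫ u‖² = ‖w‖² - ⟪u,w⟫²` for `‖u‖ = 1`. -/
theorem exists_poly {u : E} (hu : ‖u‖ = 1) (p : E) : ∃ P : MvPolynomial (Fin 3) ℝ,
    P.totalDegree ≤ 2 ∧ ∀ z : E, MvPolynomial.eval (fun c => z c) P = dl u (z - p) ^ 2 := by
  have h1 : ∀ c : Fin 3, (MvPolynomial.X c - MvPolynomial.C (p c) :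
      MvPolynomial (Fin 3) ℝ).totalDegree ≤ 1 := by
    intro c
    refine (MvPolynomial.totalDegree_sub _ _).trans ?_
    rw [MvPolynomial.totalDegree_X, MvPolynomial.totalDegree_C]
    exact le_of_eq (max_eq_left (Nat.zero_le 1))
  refine ⟨∑ c : Fin 3, (MvPolynomial.X c - MvPolynomial.C (p c)) ^ 2 -
    (∑ c : Fin 3, MvPolynomial.C (u c) * (MvPolynomial.X c - MvPolynomial.C (p c))) ^ 2, ?_, ?_⟩
  · refine (MvPolynomial.totalDegree_sub _ _).trans (max_le ?_ ?_)
    · refine MvPolynomial.totalDegree_finsetSum_le fun c _ => ?_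
      refine (MvPolynomial.totalDegree_pow _ _).trans ?_
      have := h1 c
      omega
    · refine (MvPolynomial.totalDegree_pow _ _).trans ?_
      have : (∑ c : Fin 3, MvPolynomial.C (u c) * (MvPolynomial.X c - MvPolynomial.C (p c)) :
          MvPolynomial (Fin 3) ℝ).totalDegree ≤ 1 := by
        refine MvPolynomial.totalDegree_finsetSum_le fun c _ => ?_
        refine (MvPolynomial.totalDegree_mul _ _).trans ?_
        rw [MvPolynomial.totalDegree_C]
        have := h1 c
        omega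
      omega
  · intro z
    have e1 : dl u (z - p) ^ 2 = ‖z - p‖ ^ 2 - (inner ℝ u (z - p)) ^ 2 := by
      unfold dl
      rw [@norm_sub_sq_real, norm_smul, hu, real_inner_smul_right, mul_one, Real.norm_eq_abs,
        sq_abs, real_inner_comm]
      ring
    rw [e1, EuclideanSpace.norm_sq_eq]
    simp only [map_sub, map_sum, map_pow, map_mul, MvPolynomial.eval_X, MvPolynomial.eval_C]
    congr 1
    · refine Finset.sum_congr rfl fun c _ => ?_
      rw [Real.norm_eq_abs, sq_abs]
      rfl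
    · congr 1
      rw [PiLp.inner_apply]
      refine Finset.sum_congr rfl fun c _ => ?_
      simp [mul_comm]
-- END pol

-- BEGIN fbx
private theorem face_eq {n : ℕ} {u p : Fin n → E} {f : Set E} (hf : f ∈ Faces u p) {z : E}
    (hz : z ∈ f) : f = connectedComponentIn {y | Near u p y = Near u p z} z := by
  obtain ⟨x, rfl⟩ := hf
  have h1 : z ∈ {y | Near u p y = Near u p x} := connectedComponentIn_subset _ _ hz
  have h2 : Near u p z = Near u p x := h1
  rw [h2]
  exact connectedComponentIn_eq hz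

private theorem near_iff {n : ℕ} {u p : Fin n → E} (hu : ∀ i, ‖u i‖ = 1) (L : Finset (Fin n))
    (z : E) (hL : Near u p z ⊆ L) (m : Fin n) :
    m ∈ Near u p z ↔ ∀ m' ∈ L, dl (u m) (z - p m) ^ 2 ≤ dl (u m') (z - p m') ^ 2 := by
  have h0 : ∀ i, 0 ≤ dl (u i) (z - p i) := fun i => (dl_basic (hu i)).2.1 _
  constructor
  · intro hm m' _
    have := hm m'
    rw [infDist_line (hu m), infDist_line (hu m')] at this
    exact pow_le_pow_left₀ (h0 m) this 2
  · intro h j
    have : Nonempty (Fin n) := ⟨m⟩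
    obtain ⟨i0, hi0⟩ := Finite.exists_min (fun i => dl (u i) (z - p i))
    have hn : i0 ∈ Near u p z := by
      intro k
      rw [infDist_line (hu i0), infDist_line (hu k)]
      exact hi0 k
    have h1 := h i0 (hL hn)
    have h2 : dl (u m) (z - p m) ≤ dl (u i0) (z - p i0) :=
      (pow_le_pow_iff_left₀ (h0 m) (h0 i0) (by norm_num)).1 h1
    rw [infDist_line (hu m), infDist_line (hu j)]
    exact h2.trans (hi0 j)

/-- The number of faces which meet an open box in which only the lines of `L` are nearest. -/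
theorem faces_box {n : ℕ} {u p : Fin n → E} (hu : ∀ i, ‖u i‖ = 1) (α β : Fin 3 → ℝ)
    (L : Finset (Fin n)) (hL : ∀ z : E, (∀ c, α c < z c ∧ z c < β c) → Near u p z ⊆ L) :
    {f | f ∈ Faces u p ∧ ∃ z ∈ f, ∀ c, α c < z c ∧ z c < β c}.encard ≤
      ((16 * L.card ^ 2 + 13) ^ 3 : ℕ) := by
  classical
  by_contra hcon
  rw [not_le] at hcon
  set N := (16 * L.card ^ 2 + 13) ^ 3 with hN
  have h1 : ((N + 1 : ℕ) : ℕ∞) ≤
      {f | f ∈ Faces u p ∧ ∃ z ∈ f, ∀ c, α c < z c ∧ z c < β c}.encard := by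
    have := Order.add_one_le_of_lt hcon
    simpa using this
  obtain ⟨t, hts, htc⟩ := Set.exists_subset_encard_eq h1
  have htf : t.Finite := Set.finite_of_encard_eq_coe htc
  have hz : ∀ f : Set E, ∃ z : E, f ∈ t → z ∈ f ∧ ∀ c, α c < z c ∧ z c < β c := by
    intro f
    by_cases hf : f ∈ t
    · obtain ⟨z, h⟩ := (hts hf).2
      exact ⟨z, fun _ => h⟩
    · exact ⟨0, fun h => absurd h hf⟩
  choose z hz using hz
  have hP : ∀ m : L, ∃ P : MvPolynomial (Fin 3) ℝ, P.totalDegree ≤ 2 ∧
      ∀ z : E, MvPolynomial.eval (fun c => z c) P = dl (u m) (z - p m) ^ 2 :=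
    fun m => exists_poly (hu m) (p m)
  choose P hP1 hP2 using hP
  set F : Finset (Fin 3 → ℝ) := htf.toFinset.image (fun f c => z f c) with hF
  have hinj : Set.InjOn (fun f c => z f c) (htf.toFinset : Set (Set E)) := by
    intro f hf f' hf' h
    rw [Finset.mem_coe, Set.Finite.mem_toFinset] at hf hf'
    have e : z f = z f' := by
      ext c
      exact congrFun h c
    have h2 := face_eq (hts hf).1 (hz f hf).1
    have h3 := face_eq (hts hf').1 (hz f' hf').1
    rw [e] at h2
    rw [h2]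
    exact h3.symm
  have hcard : F.card = N + 1 := by
    rw [hF, Finset.card_image_of_injOn hinj]
    rw [htf.encard_eq_coe_toFinset_card] at htc
    exact_mod_cast htc
  have key := argmin_count P hP1 α β F ?_ ?_
  · rw [Fintype.card_coe, hcard] at key
    omega
  · intro x hx c
    rw [hF, Finset.mem_image] at hx
    obtain ⟨f, hf, rfl⟩ := hx
    rw [Set.Finite.mem_toFinset] at hf
    exact (hz f hf).2 c
  · intro x hx y hy hxy harg hmem
    rw [hF, Finset.mem_image] at hx hy
    obtain ⟨f, hf, rfl⟩ := hx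
    obtain ⟨f', hf', rfl⟩ := hy
    rw [Set.Finite.mem_toFinset] at hf hf'
    set A := {w : Fin 3 → ℝ | (∀ c, α c < w c ∧ w c < β c) ∧
        {m | ∀ m', MvPolynomial.eval w (P m) ≤ MvPolynomial.eval w (P m')} =
        {m | ∀ m', MvPolynomial.eval (fun c => z f c) (P m) ≤
          MvPolynomial.eval (fun c => z f c) (P m')}} with hA
    have hself : (fun c => z f c) ∈ A := ⟨(hz f hf).2, rfl⟩
    have hsub : (WithLp.toLp 2 '' connectedComponentIn A (fun c => z f c)) ⊆
        {y | Near u p y = Near u p (z f)} := by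
      rintro _ ⟨w, hw, rfl⟩
      have hwA : w ∈ A := connectedComponentIn_subset _ _ hw
      obtain ⟨hwb, hwe⟩ := hwA
      have hLw : Near u p (WithLp.toLp 2 w : E) ⊆ L := hL _ (fun c => hwb c)
      have hLf : Near u p (z f) ⊆ L := hL _ (hz f hf).2
      have hpw : ∀ m : L, MvPolynomial.eval w (P m) =
          dl (u m) ((WithLp.toLp 2 w : E) - p m) ^ 2 := fun m => hP2 m (WithLp.toLp 2 w)
      ext i
      by_cases hi : i ∈ L
      · rw [near_iff hu L _ hLw, near_iff hu L _ hLf]
        have e1 := Set.ext_iff.1 hwe ⟨i, hi⟩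
        simp only [Set.mem_ofPred_eq, hpw, hP2, Subtype.forall] at e1
        exact e1
      · exact ⟨fun h => absurd (hLw h) hi, fun h => absurd (hLf h) hi⟩
    have hpre : IsPreconnected (WithLp.toLp 2 '' connectedComponentIn A (fun c => z f c) : Set E) :=
      isPreconnected_connectedComponentIn.image _ (PiLp.continuous_toLp 2 _).continuousOn
    have hzf : z f ∈ (WithLp.toLp 2 '' connectedComponentIn A (fun c => z f c) : Set E) :=
      ⟨_, mem_connectedComponentIn hself, rfl⟩
    have hzf' : z f' ∈ (WithLp.toLp 2 '' connectedComponentIn A (fun c => z f c) : Set E) :=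
      ⟨_, hmem, rfl⟩
    have hin := hpre.subset_connectedComponentIn hzf hsub hzf'
    rw [← face_eq (hts hf).1 (hz f hf).1] at hin
    have e1 := face_eq (hts hf).1 hin
    have e2 := face_eq (hts hf').1 (hz f' hf').1
    apply hxy
    rw [e1.trans e2.symm]
-- END fbx

-- BEGIN pw2
/-- A polynomial of degree 6 against `2 ^ k`. -/
theorem pow_two_bound (k : ℕ) : (16 * k ^ 2 + 13) ^ 3 ≤ 5000000 * 2 ^ k := by
  rcases Nat.lt_or_ge k 14 with hk | hk
  · interval_cases k <;> norm_num
  · induction k, hk using Nat.le_induction with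
    | base => norm_num
    | succ m hm ih =>
      have h0 : 4 * (16 * (m + 1) ^ 2 + 13) ≤ 5 * (16 * m ^ 2 + 13) := by nlinarith
      have h1 := Nat.pow_le_pow_left h0 3
      have h2 : 2 ^ (m + 1) = 2 * 2 ^ m := by ring
      rw [mul_pow, mul_pow] at h1
      rw [h2]
      norm_num at h1
      generalize (16 * (m + 1) ^ 2 + 13) ^ 3 = A at *
      generalize (16 * m ^ 2 + 13) ^ 3 = B at *
      generalize 2 ^ m = c at *
      omega
-- END pw2

-- BEGIN gr2
/-- As row grd (helper35's proof): `G` = the points `δ • m`, `m` an integer vector, `m_k = round (x_k/δ)`. -/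
theorem exists_grid' {δ : ℝ} (hδ : 0 < δ) (hδ1 : δ ≤ 1) :
    ∃ G : Finset E, (∀ g ∈ G, ‖g‖ ≤ 2) ∧ (∀ x : E, ‖x‖ ≤ 1 → ∃ g ∈ G, ∀ c, |x c - g c| ≤ δ / 2) ∧
      (G.card : ℝ) ≤ 64 / δ ^ 3 := by
  classical
  set N : ℤ := ⌊1 / δ + 1 / 2⌋ with hN
  have hN0 : 0 ≤ N := Int.floor_nonneg.2 (by positivity)
  set B : Finset (Fin 3 → ℤ) := Fintype.piFinset (fun _ => Finset.Icc (-N) N) with hB
  set v : (Fin 3 → ℤ) → E := fun m => WithLp.toLp 2 (fun k => δ * (m k : ℝ)) with hv
  refine ⟨(B.image v).filter (fun g => ‖g‖ ≤ 2), fun g hg => (Finset.mem_filter.1 hg).2, ?_, ?_⟩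
  · intro x hx
    set m : Fin 3 → ℤ := fun k => round (x k / δ) with hm
    have hk : ∀ k, |x k - δ * (m k : ℝ)| ≤ δ / 2 := by
      intro k
      have h1 := abs_sub_round (x k / δ)
      have h2 : x k - δ * (m k : ℝ) = δ * (x k / δ - (round (x k / δ) : ℝ)) := by
        rw [mul_sub, mul_div_cancel₀ _ hδ.ne']
      rw [h2, abs_mul, abs_of_pos hδ]
      nlinarith
    have hxk : ∀ k, |x k| ≤ 1 := fun k => (PiLp.norm_apply_le x k).trans hx
    have hdist : ‖x - v m‖ < δ := by
      rw [EuclideanSpace.norm_eq]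
      rw [Real.sqrt_lt' hδ, Fin.sum_univ_three]
      have e : ∀ k, ‖(x - v m) k‖ ^ 2 ≤ (δ / 2) ^ 2 := by
        intro k
        have : (x - v m) k = x k - δ * (m k : ℝ) := rfl
        rw [this, Real.norm_eq_abs]
        exact pow_le_pow_left₀ (abs_nonneg _) (hk k) 2
      have e0 := e 0
      have e1 := e 1
      have e2 := e 2
      nlinarith [sq_pos_of_pos hδ]
    refine ⟨v m, Finset.mem_filter.2 ⟨Finset.mem_image.2 ⟨m, ?_, rfl⟩, ?_⟩, hk⟩
    · rw [hB, Fintype.mem_piFinset]
      intro k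
      have h1 := abs_sub_round (x k / δ)
      have h2 : |x k / δ| ≤ 1 / δ := by
        rw [abs_div, abs_of_pos hδ]
        exact div_le_div_of_nonneg_right (hxk k) hδ.le
      have h3 : |(m k : ℝ)| ≤ 1 / δ + 1 / 2 := by
        have h4 : |(m k : ℝ)| ≤ |x k / δ| + |x k / δ - (m k : ℝ)| := by
          have h5 := abs_sub_abs_le_abs_sub (m k : ℝ) (x k / δ)
          rw [abs_sub_comm] at h5
          linarith
        have h6 : |x k / δ - (m k : ℝ)| ≤ 1 / 2 := h1
        linarith
      have h7 : |m k| ≤ N := by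
        rw [hN, Int.le_floor]
        rw [Int.cast_abs]
        exact h3
      rw [Finset.mem_Icc]
      exact ⟨(abs_le.1 h7).1, (abs_le.1 h7).2⟩
    · have h8 : v m = x - (x - v m) := by abel
      calc ‖v m‖ = ‖x - (x - v m)‖ := by rw [← h8]
        _ ≤ ‖x‖ + ‖x - v m‖ := norm_sub_le _ _
        _ ≤ 2 := by linarith
  · have h1 : (((B.image v).filter (fun g => ‖g‖ ≤ 2)).card : ℝ) ≤ (B.card : ℝ) := by
      exact_mod_cast (Finset.card_filter_le _ _).trans Finset.card_image_le
    have h2 : (B.card : ℝ) = (2 * (N : ℝ) + 1) ^ 3 := by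
      rw [hB, Fintype.card_piFinset]
      simp only [Int.card_Icc, Finset.prod_const, Finset.card_univ, Fintype.card_fin]
      have h3 : ((N + 1 - -N).toNat : ℝ) = 2 * (N : ℝ) + 1 := by
        have h4 : ((N + 1 - -N).toNat : ℤ) = N + 1 - -N := Int.toNat_of_nonneg (by omega)
        have h5 : (((N + 1 - -N).toNat : ℤ) : ℝ) = ((N + 1 - -N : ℤ) : ℝ) := by rw [h4]
        rw [Int.cast_natCast] at h5
        rw [h5]
        push_cast
        ring
      push_cast
      rw [h3]
    have h6 : (N : ℝ) ≤ 1 / δ + 1 / 2 := Int.floor_le _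
    have h7 : 2 * (N : ℝ) + 1 ≤ 4 / δ := by
      have h8 : 1 ≤ 1 / δ := by
        rw [le_div_iff₀ hδ]
        linarith
      have h9 : 4 / δ = 4 * (1 / δ) := by ring
      rw [h9]
      linarith
    have hN' : (0 : ℝ) ≤ N := by exact_mod_cast hN0
    calc (((B.image v).filter (fun g => ‖g‖ ≤ 2)).card : ℝ) ≤ (B.card : ℝ) := h1
      _ = (2 * (N : ℝ) + 1) ^ 3 := h2
      _ ≤ (4 / δ) ^ 3 := pow_le_pow_left₀ (by linarith) h7 3
      _ = 64 / δ ^ 3 := by
        rw [div_pow]
        norm_num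
-- END gr2

-- BEGIN pnt
/-- The Warren bound for the candidates of one grid point is covered by the weights. -/
theorem count_faces {n : ℕ} (hn : 0 < n) (D : Fin n → ℝ) (hD : ∀ i, 0 ≤ D i) {δ : ℝ} (hδ : 0 < δ)
    (S : Finset (Fin n)) (hS : ∀ i, i ∈ S ↔ ∀ j, D i < D j + 2 * δ) :
    (((16 * S.card ^ 2 + 13) ^ 3 : ℕ) : ℝ≥0∞) ≤
      10000000 * ∑' j : ℕ, ∑ i0, ∏ i, wt δ j (i = i0) (D i) := by
  classical
  have : Nonempty (Fin n) := ⟨⟨0, hn⟩⟩
  have hne : S.Nonempty := by
    obtain ⟨i, hi⟩ := Finite.exists_min D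
    exact ⟨i, (hS i).2 fun j => by have := hi j; linarith⟩
  have hset : {T : Finset (Fin n) | T.Nonempty ∧ ∀ i ∈ T, ∀ j, D i < D j + 2 * δ} =
      ((S.powerset.erase ∅ : Finset (Finset (Fin n))) : Set (Finset (Fin n))) := by
    ext T
    simp only [mem_ofPred_eq, Finset.coe_erase, mem_sdiff, Finset.mem_coe, Finset.mem_powerset,
      mem_singleton_iff]
    rw [Finset.nonempty_iff_ne_empty]
    constructor
    · rintro ⟨h1, h2⟩
      exact ⟨fun i hi => (hS i).2 (h2 i hi), h1⟩
    · rintro ⟨h1, h2⟩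
      exact ⟨h2, fun i hi => (hS i).1 (h1 hi)⟩
  have h1 := count_le D hD hδ
  rw [hset, Set.ncard_coe_finset, Finset.card_erase_of_mem (Finset.empty_mem_powerset S),
    Finset.card_powerset] at h1
  have h2 : 2 ≤ 2 ^ S.card := by
    calc 2 = 2 ^ 1 := by norm_num
      _ ≤ 2 ^ S.card := Nat.pow_le_pow_right (by norm_num) hne.card_pos
  have h3 : (16 * S.card ^ 2 + 13) ^ 3 ≤ 10000000 * (2 ^ S.card - 1) := by
    have := pow_two_bound S.card
    omega
  calc (((16 * S.card ^ 2 + 13) ^ 3 : ℕ) : ℝ≥0∞) ≤ ((10000000 * (2 ^ S.card - 1) : ℕ) : ℝ≥0∞) := by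
        exact_mod_cast h3
    _ = 10000000 * ((2 ^ S.card - 1 : ℕ) : ℝ≥0∞) := by push_cast; rfl
    _ ≤ _ := by gcongr
-- END pnt

-- BEGIN fle
theorem fle_box {z g : E} {δ : ℝ} (hδ : 0 < δ)
    (h : ∀ c, g c - 11 * δ / 20 < z c ∧ z c < g c + 11 * δ / 20) : ‖z - g‖ < δ := by
  rw [EuclideanSpace.norm_eq, Fin.sum_univ_three]
  have k : ∀ c, ‖(z - g) c‖ ^ 2 ≤ (11 * δ / 20) ^ 2 := by
    intro c
    rw [Real.norm_eq_abs, sq_abs, PiLp.sub_apply]
    have := h c
    apply sq_le_sq'
    · linarith [this.1]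
    · linarith [this.2]
  have h0 := k 0
  have h1 := k 1
  have h2 := k 2
  rw [Real.sqrt_lt' hδ]
  have : 0 < δ ^ 2 := by positivity
  nlinarith

theorem fle_union {ι : Type} (G : Finset ι) (B : ι → Set (Set E)) :
    (((⋃ g ∈ G, B g).encard : ℕ∞) : ℝ≥0∞) ≤ ∑ g ∈ G, (((B g).encard : ℕ∞) : ℝ≥0∞) := by
  classical
  induction G using Finset.induction_on with
  | empty => simp
  | insert a s ha ih =>
    rw [Finset.set_biUnion_insert, Finset.sum_insert ha]
    refine le_trans ?_ (add_le_add le_rfl ih)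
    rw [← ENat.toENNReal_add]
    exact ENat.toENNReal_mono (Set.encard_union_le _ _)

/-- The faces which meet the unit ball are counted by the weights of the grid points. -/
theorem faces_le {n : ℕ} (hn : 0 < n) {u : Fin n → E} (hu : ∀ i, ‖u i‖ = 1) {δ : ℝ} (hδ : 0 < δ) (G : Finset E)
    (hG : ∀ x : E, ‖x‖ ≤ 1 → ∃ g ∈ G, ∀ c, |x c - g c| ≤ δ / 2) (p : Fin n → E) :
    (({f | f ∈ Faces u p ∧ (f ∩ Metric.closedBall 0 1).Nonempty}.encard : ℕ∞) : ℝ≥0∞) ≤
      ∑ g ∈ G, 10000000 * ∑' j : ℕ, ∑ i0, ∏ i, wt δ j (i = i0) (dl (u i) (g - p i)) := by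
  classical
  set B : E → Set (Set E) := fun g =>
    {f | f ∈ Faces u p ∧ ∃ z ∈ f, ∀ c, g c - 11 * δ / 20 < z c ∧ z c < g c + 11 * δ / 20} with hB
  have hsub : {f | f ∈ Faces u p ∧ (f ∩ Metric.closedBall 0 1).Nonempty} ⊆ ⋃ g ∈ G, B g := by
    rintro f ⟨hf, x, hxf, hx⟩
    rw [Metric.mem_closedBall, dist_zero_right] at hx
    obtain ⟨g, hg, hgx⟩ := hG x hx
    simp only [mem_iUnion]
    refine ⟨g, hg, hf, x, hxf, fun c => ?_⟩
    have := abs_le.1 (hgx c)
    constructor <;> linarith [this.1, this.2]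
  refine (ENat.toENNReal_mono (Set.encard_le_encard hsub)).trans ((fle_union G B).trans ?_)
  refine Finset.sum_le_sum fun g _ => ?_
  set S : Finset (Fin n) :=
    Finset.univ.filter (fun i => ∀ j, dl (u i) (g - p i) < dl (u j) (g - p j) + 2 * δ) with hS
  have hL : ∀ z : E, (∀ c, g c - 11 * δ / 20 < z c ∧ z c < g c + 11 * δ / 20) → Near u p z ⊆ S := by
    intro z hz i hi
    have hn1 := fle_box hδ hz
    simp only [hS, Finset.coe_filter, Finset.mem_univ, true_and, mem_ofPred_eq]
    intro j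
    have h : Metric.infDist z (line (p i) (u i)) ≤ Metric.infDist z (line (p j) (u j)) := hi j
    rw [infDist_line (hu i), infDist_line (hu j)] at h
    have a := (dl_basic (hu i)).2.2.2.2.2 (g - p i) (z - p i)
    have b := (dl_basic (hu j)).2.2.2.2.2 (z - p j) (g - p j)
    have c : g - p i - (z - p i) = -(z - g) := by abel
    have d : z - p j - (g - p j) = z - g := by abel
    rw [c, norm_neg] at a
    rw [d] at b
    linarith
  have h1 := faces_box hu (fun c => g c - 11 * δ / 20) (fun c => g c + 11 * δ / 20) S hL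
  have h2 := count_faces hn (fun i => dl (u i) (g - p i)) (fun i => (dl_basic (hu i)).2.1 _) hδ S
    (fun i => by simp [hS])
  refine (ENat.toENNReal_mono h1).trans ?_
  rw [ENat.toENNReal_coe]
  exact h2
-- END fle

-- BEGIN mn2
/-- Word for word as row main, with `exists_grid'` and `faces_le`. -/
theorem main_faces {n : ℕ} (hn : 0 < n) {K : ℝ≥0} {u : Fin n → E} (hu : ∀ i, ‖u i‖ = 1)
    {f : Fin n → E → ℝ≥0} (hK : ∀ i, LipschitzWith K (f i)) (h0 : ∀ i w, 1 < ‖w‖ → f i w = 0)
    (h1 : ∀ i, ∫⁻ w, f i w = 1) :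
    ∃ F : (Fin n → E) → ℝ≥0∞, Measurable F ∧
      (∀ p, (({f | f ∈ Faces u p ∧ (f ∩ Metric.closedBall 0 1).Nonempty}.encard : ℕ∞) : ℝ≥0∞) ≤ F p) ∧
      ∫⁻ p, F p ∂(Measure.pi fun i => volume.withDensity (fun x => (f i x : ℝ≥0∞))) ≤
        ENNReal.ofReal (10000000 * (64 * (8 * Real.exp 56) * (1000 * K * n) ^ (3 / 2 : ℝ))) := by
  have hm : ∀ i, Measurable (f i) := fun i => (hK i).continuous.measurable
  have : ∀ i, IsProbabilityMeasure ((volume : Measure E).withDensity (fun x => (f i x : ℝ≥0∞))) :=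
    fun i => main_prob (h1 i)
  have hn1 : (1 : ℝ) ≤ n := by exact_mod_cast hn
  have hK1 : (1 : ℝ) ≤ 1000 * K := density_K (hK ⟨0, hn⟩) (h0 ⟨0, hn⟩) (h1 ⟨0, hn⟩)
  set M : ℝ := 1000 * K * n with hM
  have hM1 : 1 ≤ M := by
    have := mul_le_mul hK1 hn1 (by norm_num) (by linarith)
    simpa using! this
  have hM0 : 0 < M := by linarith
  set δ : ℝ := M ^ (-(1 / 2) : ℝ) with hδd
  have hδ : 0 < δ := Real.rpow_pos_of_pos hM0 _
  have hδ1 : δ ≤ 1 := Real.rpow_le_one_of_one_le_of_nonpos hM1 (by norm_num)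
  have hδ2 : δ ^ 2 = M⁻¹ := by
    rw [hδd, ← Real.rpow_natCast, ← Real.rpow_mul hM0.le, ← Real.rpow_neg_one]
    norm_num
  have hδ3 : 64 / δ ^ 3 = 64 * M ^ (3 / 2 : ℝ) := by
    rw [hδd, ← Real.rpow_natCast, ← Real.rpow_mul hM0.le, div_eq_mul_inv, ← Real.rpow_neg hM0.le]
    norm_num
  have hδK : 1000 * K * δ ^ 2 = 1 / n := by
    rw [hδ2, hM]
    have hKn : (K : ℝ) ≠ 0 := by
      intro h
      rw [h] at hK1
      norm_num at hK1
    have hnn : (n : ℝ) ≠ 0 := by positivity
    field_simp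
  obtain ⟨G, hG2, hGx, hGc⟩ := exists_grid' hδ hδ1
  refine ⟨fun p => ∑ g ∈ G, 10000000 * ∑' j : ℕ, ∑ i0, ∏ i, wt δ j (i = i0) (dl (u i) (g - p i)), ?_,
    fun p => faces_le hn hu hδ G hGx p, ?_⟩
  · refine Finset.measurable_sum _ fun g _ => ?_
    refine Measurable.const_mul ?_ _
    refine Measurable.tsum fun j => ?_
    refine Finset.measurable_sum _ fun i0 _ => ?_
    refine Finset.measurable_prod _ fun i _ => ?_
    exact (wt_measurable (hu i) δ j (i = i0) g).comp (measurable_pi_apply i)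
  · have pm : ∀ g j i0, Measurable (fun p : Fin n → E => ∏ i, wt δ j (i = i0) (dl (u i) (g - p i))) := by
      intro g j i0
      refine Finset.measurable_prod _ fun i _ => ?_
      exact (wt_measurable (hu i) δ j (i = i0) g).comp (measurable_pi_apply i)
    rw [lintegral_finsetSum _ (fun g _ => (Measurable.tsum fun j =>
      Finset.measurable_sum _ fun i0 _ => pm g j i0).const_mul _)]
    have each : ∀ g ∈ G, ∫⁻ p, 10000000 * ∑' j : ℕ, ∑ i0, ∏ i, wt δ j (i = i0) (dl (u i) (g - p i))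
        ∂(Measure.pi fun i => volume.withDensity (fun x => (f i x : ℝ≥0∞))) ≤
        ENNReal.ofReal (10000000 * (8 * Real.exp 56)) := by
      intro g hg
      rw [lintegral_const_mul _ (Measurable.tsum fun j =>
        Finset.measurable_sum _ fun i0 _ => pm g j i0), ENNReal.ofReal_mul (by norm_num),
        show ENNReal.ofReal (10000000 : ℝ) = 10000000 by norm_num]
      refine mul_le_mul_right ?_ _
      rw [lintegral_tsum (fun j => (Finset.measurable_sum _ fun i0 _ => pm g j i0).aemeasurable)]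
      have hk : ∀ i, LipschitzWith K (fun w => f i (g - w)) := by
        intro i
        have : LipschitzWith (K * 1) (fun w => f i (g - w)) := (hK i).comp (by
          refine LipschitzWith.of_dist_le_mul fun a b => ?_
          rw [dist_sub_left]
          simp)
        simpa using! this
      have hz : ∀ i w, 3 < ‖w‖ → f i (g - w) = 0 := by
        intro i w hw
        apply h0
        have a1 : ‖w‖ ≤ ‖g‖ + ‖g - w‖ := by
          have := norm_sub_le g (g - w)
          simpa using! this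
        have a2 := hG2 g hg
        linarith
      have ho : ∀ i, ∫⁻ w, (f i (g - w) : ℝ≥0∞) = 1 := by
        intro i
        rw [lintegral_sub_left_eq_self (fun w => (f i w : ℝ≥0∞)) g]
        exact h1 i
      refine le_trans (le_of_eq ?_) (per_point hn hu hk hz ho hδ hδK)
      refine tsum_congr fun j => ?_
      rw [lintegral_finsetSum _ (fun i0 _ => pm g j i0)]
      refine Finset.sum_congr rfl fun i0 _ => ?_
      rw [lintegral_pi_prod (fun i => volume.withDensity (fun x => (f i x : ℝ≥0∞)))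
        (fun i x => wt δ j (i = i0) (dl (u i) (g - x)))
        (fun i => wt_measurable (hu i) δ j (i = i0) g)]
      refine Finset.prod_congr rfl fun i _ => ?_
      have hw : Measurable (fun w : E => wt δ j (i = i0) (dl (u i) w)) := by
        have := wt_measurable (hu i) δ j (i = i0) 0
        have e : ∀ x : E, dl (u i) (0 - x) = dl (u i) x := by
          intro x
          rw [zero_sub]
          exact (dl_basic (hu i)).2.2.2.2.1 x
        simpa only [e] using! this
      exact lintegral_shift (hm i) g (fun w => wt δ j (i = i0) (dl (u i) w)) hw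
    refine (Finset.sum_le_sum each).trans ?_
    rw [Finset.sum_const, nsmul_eq_mul, ← ENNReal.ofReal_natCast,
      ← ENNReal.ofReal_mul (Nat.cast_nonneg _)]
    apply ENNReal.ofReal_le_ofReal
    rw [hδ3] at hGc
    have h8 : (0 : ℝ) ≤ 10000000 * (8 * Real.exp 56) := by positivity
    calc (G.card : ℝ) * (10000000 * (8 * Real.exp 56)) ≤
          (64 * M ^ (3 / 2 : ℝ)) * (10000000 * (8 * Real.exp 56)) :=
          mul_le_mul_of_nonneg_right hGc h8
      _ = 10000000 * (64 * (8 * Real.exp 56) * M ^ (3 / 2 : ℝ)) := by ring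
-- END mn2

end Pool.Agent.Vor
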