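import Pool.Agent.Vor.Defs

set_option autoImplicit false

namespace Pool.Agent.Vor

open MeasureTheory Set
open scoped ENNReal NNReal

-- BEGIN dlb
/-- `z ↦ z - ⟪u,z⟫ u` is linear and does not increase norms (orthogonal projection, or expand `‖z - ⟪u,z⟫u‖² = ‖z‖² - ⟪u,z⟫²`); the last clause is the triangle inequality. -/
theorem dl_basic {u : E} (hu : ‖u‖ = 1) :
    Continuous (dl u) ∧ (∀ z, 0 ≤ dl u z) ∧ (∀ z, dl u z ≤ ‖z‖) ∧
    (∀ (t : ℝ) (z : E), dl u (t • z) = |t| * dl u z) ∧ (∀ z, dl u (-z) = dl u z) ∧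
    (∀ z z', dl u z ≤ dl u z' + ‖z - z'‖) := by
  have hle : ∀ z, dl u z ≤ ‖z‖ := by
    intro z
    have h1 : ‖z - (inner ℝ u z) • u‖ ^ 2 = ‖z‖ ^ 2 - (inner ℝ u z) ^ 2 := by
      rw [norm_sub_sq_real, inner_smul_right, norm_smul, hu, real_inner_comm, Real.norm_eq_abs,
        mul_one, sq_abs]
      ring
    exact (sq_le_sq₀ (norm_nonneg _) (norm_nonneg _)).1 (by
      show ‖z - (inner ℝ u z) • u‖ ^ 2 ≤ ‖z‖ ^ 2
      rw [h1]
      linarith [sq_nonneg (inner ℝ u z : ℝ)])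
  refine ⟨?_, fun z => norm_nonneg _, hle, ?_, ?_, ?_⟩
  · unfold dl
    fun_prop
  · intro t z
    unfold dl
    rw [inner_smul_right, mul_smul, ← smul_sub, norm_smul, Real.norm_eq_abs]
  · intro z
    unfold dl
    rw [inner_neg_right, neg_smul, sub_neg_eq_add, ← norm_neg]
    congr 1
    abel
  · intro z z'
    have h1 : z - (inner ℝ u z) • u = (z' - (inner ℝ u z') • u) +
        ((z - z') - (inner ℝ u (z - z')) • u) := by
      rw [inner_sub_right, sub_smul]
      abel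
    calc dl u z = ‖(z' - (inner ℝ u z') • u) + ((z - z') - (inner ℝ u (z - z')) • u)‖ := by
          rw [← h1]; rfl
      _ ≤ dl u z' + dl u (z - z') := norm_add_le _ _
      _ ≤ dl u z' + ‖z - z'‖ := add_le_add le_rfl (hle _)
-- END dlb

-- BEGIN inf
/-- `‖(x - p) - t u‖² = (dl u (x-p))² + (⟪u,x-p⟫ - t)²` for every `t`: lower bound by `Metric.le_infDist` (nonempty), upper bound at `t = ⟪u,x-p⟫` by `Metric.infDist_le_dist_of_mem`. -/
theorem infDist_line {u : E} (hu : ‖u‖ = 1) (x p : E) :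
    Metric.infDist x (line p u) = dl u (x - p) := by
  have hd : ∀ t : ℝ, dist x (p + t • u) = ‖(x - p) - t • u‖ := by
    intro t
    rw [dist_eq_norm]
    congr 1
    abel
  have key : ∀ t : ℝ, ‖(x - p) - t • u‖ ^ 2 =
      (dl u (x - p)) ^ 2 + (inner ℝ u (x - p) - t) ^ 2 := by
    intro t
    have e : (x - p) - t • u =
        ((x - p) - (inner ℝ u (x - p)) • u) + (inner ℝ u (x - p) - t) • u := by
      rw [sub_smul]
      abel
    have e2 : inner ℝ ((x - p) - (inner ℝ u (x - p)) • u) ((inner ℝ u (x - p) - t) • u) = 0 := by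
      rw [inner_smul_right, inner_sub_left, inner_smul_left, real_inner_self_eq_norm_sq, hu,
        real_inner_comm (x - p) u]
      simp
    rw [e, norm_add_sq_real, e2, norm_smul, hu]
    unfold dl
    rw [mul_one, Real.norm_eq_abs, sq_abs]
    ring
  have hne : (line p u).Nonempty := ⟨p + (0 : ℝ) • u, 0, rfl⟩
  have h0 : 0 ≤ dl u (x - p) := norm_nonneg _
  apply le_antisymm
  · have h1 := Metric.infDist_le_dist_of_mem (x := x) (s := line p u)
      (y := p + (inner ℝ u (x - p)) • u) ⟨_, rfl⟩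
    rw [hd] at h1
    exact h1
  · rw [Metric.le_infDist hne]
    rintro y ⟨t, rfl⟩
    rw [hd t]
    have h2 := key t
    have h3 : (dl u (x - p)) ^ 2 ≤ ‖(x - p) - t • u‖ ^ 2 := by
      rw [h2]
      have := sq_nonneg (inner ℝ u (x - p) - t)
      linarith
    exact (pow_le_pow_iff_left₀ h0 (norm_nonneg _) two_ne_zero).mp h3
-- END inf

-- BEGIN rot
theorem rot_basis {u : E} (hu : ‖u‖ = 1) : ∃ b : OrthonormalBasis (Fin 3) ℝ E, b 0 = u := by
  have h1 : Orthonormal ℝ (({0} : Set (Fin 3)).domRestrict (fun _ => u)) := by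
    constructor
    · intro i
      simpa using! hu
    · intro i j hij
      exact absurd (Subsingleton.elim i j) hij
  obtain ⟨b, hb⟩ := Orthonormal.exists_orthonormalBasis_extension_of_card_eq (ι := Fin 3) (by simp) h1
  exact ⟨b, hb 0 (by simp)⟩

/-- Take an orthonormal basis of `E` whose vector number 0 is `u`. -/
theorem exists_rot {u : E} (hu : ‖u‖ = 1) :
    ∃ φ : E → ℝ × EuclideanSpace ℝ (Fin 2), MeasurePreserving φ volume (volume.prod volume) ∧
      ∀ z, |(φ z).1| ≤ ‖z‖ ∧ ‖(φ z).2‖ = dl u z := by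
  obtain ⟨b, hb⟩ := rot_basis hu
  have e1 : MeasurePreserving b.repr volume volume := b.measurePreserving_repr
  have e2 : MeasurePreserving (@WithLp.ofLp 2 (Fin 3 → ℝ)) := PiLp.volume_preserving_ofLp _
  have e3 := volume_preserving_piFinSuccAbove (fun _ : Fin 3 => ℝ) 0
  have e4 : MeasurePreserving
      (Prod.map (id : ℝ → ℝ) (@WithLp.toLp 2 (Fin 2 → ℝ))) (volume.prod volume) (volume.prod volume) :=
    (MeasurePreserving.id _).prod (PiLp.volume_preserving_toLp (Fin 2))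
  refine ⟨_, e4.comp (e3.comp (e2.comp e1)), fun z => ⟨?_, ?_⟩⟩
  · have : b.repr z 0 = inner ℝ u z := by rw [b.repr_apply_apply, hb]
    have h2 : |b.repr z 0| ≤ ‖z‖ := by
      rw [this]
      have := abs_real_inner_le_norm u z
      rwa [hu, one_mul] at this
    exact h2
  · have k0 : b.repr (z - (inner ℝ u z) • u) 0 = 0 := by
      rw [b.repr_apply_apply, hb, inner_sub_right, inner_smul_right, real_inner_self_eq_norm_sq, hu]
      ring
    have k1 : ∀ k : Fin 3, k ≠ 0 → b.repr (z - (inner ℝ u z) • u) k = b.repr z k := by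
      intro k hk
      rw [b.repr_apply_apply, b.repr_apply_apply, inner_sub_right, inner_smul_right]
      have : inner ℝ (b k) u = (0 : ℝ) := by rw [← hb]; exact b.orthonormal.2 hk
      rw [this]; ring
    have hd : dl u z = ‖b.repr (z - (inner ℝ u z) • u)‖ := by
      rw [b.repr.norm_map]; rfl
    rw [hd, EuclideanSpace.norm_eq, EuclideanSpace.norm_eq, Fin.sum_univ_three, Fin.sum_univ_two,
      k0, k1 1 (by decide), k1 2 (by decide)]
    have h3 : ((Prod.map (id : ℝ → ℝ) (@WithLp.toLp 2 (Fin 2 → ℝ)) ∘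
        (MeasurableEquiv.piFinSuccAbove (fun _ : Fin 3 => ℝ) 0) ∘
        (@WithLp.ofLp 2 (Fin 3 → ℝ)) ∘ b.repr) z).2 0 = b.repr z 1 := rfl
    have h4 : ((Prod.map (id : ℝ → ℝ) (@WithLp.toLp 2 (Fin 2 → ℝ)) ∘
        (MeasurableEquiv.piFinSuccAbove (fun _ : Fin 3 => ℝ) 0) ∘
        (@WithLp.ofLp 2 (Fin 3 → ℝ)) ∘ b.repr) z).2 1 = b.repr z 2 := rfl
    rw [h3, h4]
    simp
-- END rot

-- BEGIN vol
/-- By row rot the set is contained in the preimage of `Icc (-3) 3 ×ˢ (ball 0 b \ ball 0 a)`; `EuclideanSpace.volume_ball_fin_two` and `Measure.prod_prod`, `measure_diff`. -/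
theorem volume_ring_le {u : E} (hu : ‖u‖ = 1) {a b : ℝ} (ha : 0 ≤ a) (hab : a ≤ b) :
    volume {w : E | ‖w‖ ≤ 3 ∧ w ∈ ring u a b} ≤ ENNReal.ofReal (6 * Real.pi * (b ^ 2 - a ^ 2)) := by
  obtain ⟨φ, hφ, hφ2⟩ := exists_rot hu
  have hsub : {w : E | ‖w‖ ≤ 3 ∧ w ∈ ring u a b} ⊆
      φ ⁻¹' (Icc (-3 : ℝ) 3 ×ˢ (Metric.ball (0 : EuclideanSpace ℝ (Fin 2)) b \ Metric.ball 0 a)) := by
    rintro w ⟨h1, h2⟩
    obtain ⟨h3, h4⟩ := hφ2 w
    unfold ring at h2
    change a ≤ dl u w ∧ dl u w < b at h2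
    rw [mem_preimage, mem_prod]
    refine ⟨mem_Icc.mpr (abs_le.mp (le_trans h3 h1)), ?_, ?_⟩
    · rw [mem_ball_zero_iff, h4]
      exact h2.2
    · rw [mem_ball_zero_iff, h4]
      exact not_lt.mpr h2.1
  have hms : MeasurableSet (Icc (-3 : ℝ) 3 ×ˢ
      (Metric.ball (0 : EuclideanSpace ℝ (Fin 2)) b \ Metric.ball 0 a)) :=
    measurableSet_Icc.prod (measurableSet_ball.diff measurableSet_ball)
  refine le_trans (measure_mono hsub) ?_
  rw [hφ.measure_preimage hms.nullMeasurableSet, Measure.prod_prod, Real.volume_Icc,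
    measure_sdiff (Metric.ball_subset_ball hab) measurableSet_ball.nullMeasurableSet measure_ball_lt_top.ne,
    EuclideanSpace.volume_ball_fin_two, EuclideanSpace.volume_ball_fin_two]
  have hb : 0 ≤ b := le_trans ha hab
  have e1 : ENNReal.ofReal b ^ 2 * ENNReal.ofReal Real.pi = ENNReal.ofReal (b ^ 2 * Real.pi) := by
    rw [ENNReal.ofReal_mul (by positivity), ENNReal.ofReal_pow hb]
  have e2 : ENNReal.ofReal a ^ 2 * ENNReal.ofReal Real.pi = ENNReal.ofReal (a ^ 2 * Real.pi) := by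
    rw [ENNReal.ofReal_mul (by positivity), ENNReal.ofReal_pow ha]
  rw [e1, e2, ← ENNReal.ofReal_sub _ (by positivity), ← ENNReal.ofReal_mul (by norm_num)]
  apply le_of_eq
  congr 1
  ring
-- END vol

-- BEGIN mea
/-- The ring is measurable. -/
theorem measurableSet_ring {u : E} (hu : ‖u‖ = 1) (a b : ℝ) : MeasurableSet (ring u a b) := by
  have hc : Measurable (dl u) := (dl_basic hu).1.measurable
  exact (measurableSet_le measurable_const hc).inter (measurableSet_lt hc measurable_const)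
-- END mea

-- BEGIN scl
/-- `ring u (t a) (t b)` is the image of `ring u a b` under `w ↦ t w`; `Measure.map_addHaar_smul` (or `Measure.setLIntegral_comp_smul` and the like), `finrank = 3`. -/
theorem lintegral_ring_smul {u : E} (hu : ‖u‖ = 1) {t : ℝ} (ht : 0 < t) (a b : ℝ) (h : E → ℝ≥0)
    (hm : Measurable h) :
    ∫⁻ w in ring u (t * a) (t * b), h w = ENNReal.ofReal (t ^ 3) * ∫⁻ w in ring u a b, h (t • w) := by
  have hd := (dl_basic hu).2.2.2.1
  have hR := measurableSet_ring hu (t * a) (t * b)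
  have hR' := measurableSet_ring hu a b
  have hmem : ∀ w : E, t • w ∈ ring u (t * a) (t * b) ↔ w ∈ ring u a b := by
    intro w
    unfold ring
    rw [mem_setOf_eq, mem_setOf_eq, hd t w, abs_of_pos ht]
    exact and_congr (mul_le_mul_iff_right₀ ht) (mul_lt_mul_iff_right₀ ht)
  have hF : Measurable ((ring u (t * a) (t * b)).indicator fun w => (h w : ℝ≥0∞)) :=
    (hm.coe_nnreal_ennreal).indicator hR
  have h1 : ∫⁻ w : E, ((ring u (t * a) (t * b)).indicator fun w => (h w : ℝ≥0∞)) (t • w) =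
      ENNReal.ofReal |(t ^ 3)⁻¹| *
        ∫⁻ w : E, ((ring u (t * a) (t * b)).indicator fun w => (h w : ℝ≥0∞)) w := by
    rw [← lintegral_map hF (measurable_const_smul t), Measure.map_addHaar_smul volume ht.ne',
      lintegral_smul_measure, finrank_euclideanSpace_fin, smul_eq_mul]
  have h2 : ∀ w : E, ((ring u (t * a) (t * b)).indicator fun w => (h w : ℝ≥0∞)) (t • w) =
      (ring u a b).indicator (fun w => (h (t • w) : ℝ≥0∞)) w := by
    intro w
    by_cases hw : w ∈ ring u a b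
    · rw [indicator_of_mem hw, indicator_of_mem ((hmem w).2 hw)]
    · rw [indicator_of_notMem hw, indicator_of_notMem fun h3 => hw ((hmem w).1 h3)]
  rw [lintegral_congr h2, lintegral_indicator hR', lintegral_indicator hR] at h1
  rw [h1, ← mul_assoc, ← ENNReal.ofReal_mul (by positivity), abs_of_pos (by positivity),
    mul_inv_cancel₀ (by positivity), ENNReal.ofReal_one, one_mul]
-- END scl

-- BEGIN sup
/-- If `‖w‖ > 3` clear. Otherwise there is `q` with `‖q‖ > 3` and `‖w - q‖ ≤ 4` (for instance `q = w + (7/2 - ‖w‖) e` with `e = w/‖w‖`, or a unit vector if `w = 0`), `h q = 0`. -/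
theorem density_bound {K : ℝ≥0} {h : E → ℝ≥0} (hK : LipschitzWith K h)
    (h0 : ∀ w, 3 < ‖w‖ → h w = 0) (w : E) : h w ≤ 4 * K := by
  by_cases hw : 3 < ‖w‖
  · rw [h0 w hw]
    exact bot_le
  · have hw3 : ‖w‖ ≤ 3 := not_lt.1 hw
    obtain ⟨e, he, hwe⟩ : ∃ e : E, ‖e‖ = 1 ∧ w = ‖w‖ • e := by
      by_cases hz : w = 0
      · refine ⟨EuclideanSpace.single 0 1, by simp, ?_⟩
        rw [hz, norm_zero, zero_smul]
      · have hn : ‖w‖ ≠ 0 := norm_ne_zero_iff.2 hz
        refine ⟨‖w‖⁻¹ • w, ?_, ?_⟩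
        · rw [norm_smul, norm_inv, norm_norm, inv_mul_cancel₀ hn]
        · rw [smul_smul, mul_inv_cancel₀ hn, one_smul]
    have hq : ‖(7 / 2 : ℝ) • e‖ = 7 / 2 := by
      rw [norm_smul, he, mul_one, Real.norm_eq_abs, abs_of_pos (by norm_num)]
    have hd : dist w ((7 / 2 : ℝ) • e) ≤ 4 := by
      rw [dist_eq_norm]
      have h1 : w - (7 / 2 : ℝ) • e = (‖w‖ - 7 / 2) • e := by
        rw [sub_smul, ← hwe]
      rw [h1, norm_smul, he, mul_one, Real.norm_eq_abs, abs_le]
      constructor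
      · linarith [norm_nonneg w]
      · linarith
    have h2 := hK.dist_le_mul w ((7 / 2 : ℝ) • e)
    rw [h0 ((7 / 2 : ℝ) • e) (by rw [hq]; norm_num), NNReal.dist_eq, NNReal.coe_zero, sub_zero,
      abs_of_nonneg (NNReal.coe_nonneg _)] at h2
    have h3 : (K : ℝ) * dist w ((7 / 2 : ℝ) • e) ≤ K * 4 := mul_le_mul_of_nonneg_left hd K.2
    rw [← NNReal.coe_le_coe, NNReal.coe_mul]
    have h4 : ((4 : ℝ≥0) : ℝ) = 4 := rfl
    rw [h4]
    linarith
-- END sup

-- BEGIN kge
/-- `f ≤ 4K` (row sup) and the volume of the unit ball is `4π/3 < 5` (`EuclideanSpace.volume_ball_fin_three` or `volume_closedBall_fin_three`): `1 = ∫ f ≤ 20 K`. -/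
theorem density_K {K : ℝ≥0} {f : E → ℝ≥0} (hK : LipschitzWith K f)
    (h0 : ∀ w, 1 < ‖w‖ → f w = 0) (h1 : ∫⁻ w, f w = 1) : (1 : ℝ) ≤ 1000 * K := by
  have hb : ∀ w, f w ≤ 4 * K := density_bound hK (fun w hw => h0 w (lt_trans (by norm_num) hw))
  have h2 : ∫⁻ w, (f w : ℝ≥0∞) ≤ ∫⁻ w, (Metric.closedBall (0 : E) 1).indicator
      (fun _ => ((4 * K : ℝ≥0) : ℝ≥0∞)) w := by
    refine lintegral_mono fun w => ?_
    by_cases hw : w ∈ Metric.closedBall (0 : E) 1
    · rw [indicator_of_mem hw]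
      exact ENNReal.coe_le_coe.2 (hb w)
    · rw [indicator_of_notMem hw, h0 w]
      · simp
      · rwa [Metric.mem_closedBall, dist_zero_right, not_le] at hw
  rw [h1, lintegral_indicator measurableSet_closedBall, setLIntegral_const,
    EuclideanSpace.volume_closedBall_fin_three, ENNReal.ofReal_one, one_pow, one_mul,
    ENNReal.ofReal, ← ENNReal.coe_mul, ← ENNReal.coe_one, ENNReal.coe_le_coe,
    ← NNReal.coe_le_coe, NNReal.coe_mul, NNReal.coe_mul, NNReal.coe_one,
    Real.coe_toNNReal _ (by positivity)] at h2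
  have h4 : ((4 : ℝ≥0) : ℝ) = 4 := rfl
  rw [h4] at h2
  have h5 : (K : ℝ) * Real.pi ≤ K * 4 := mul_le_mul_of_nonneg_left Real.pi_le_four K.2
  nlinarith [K.2]
-- END kge

end Pool.Agent.Vor
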