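import Pool.Agent.Vor.Cov

set_option autoImplicit false

namespace Pool.Agent.Vor

open MeasureTheory Set
open scoped ENNReal NNReal

-- BEGIN main
theorem main_prob {f : E → ℝ≥0} (h1 : ∫⁻ w, f w = 1) :
    IsProbabilityMeasure ((volume : Measure E).withDensity (fun x => (f x : ℝ≥0∞))) := by
  constructor
  rw [withDensity_apply _ MeasurableSet.univ, Measure.restrict_univ]
  exact h1

/-- The bound with an explicit constant. -/
theorem main {n : ℕ} {K : ℝ≥0} {u : Fin n → E} (hu : ∀ i, ‖u i‖ = 1)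
    {f : Fin n → E → ℝ≥0} (hK : ∀ i, LipschitzWith K (f i)) (h0 : ∀ i w, 1 < ‖w‖ → f i w = 0)
    (h1 : ∀ i, ∫⁻ w, f i w = 1) :
    ∃ F : (Fin n → E) → ℝ≥0∞, Measurable F ∧ (∀ p, (((Nerve u p).ncard : ℕ) : ℝ≥0∞) ≤ F p) ∧
      ∫⁻ p, F p ∂(Measure.pi fun i => volume.withDensity (fun x => (f i x : ℝ≥0∞))) ≤
        ENNReal.ofReal (64 * (8 * Real.exp 56) * (1000 * K * n) ^ (3 / 2 : ℝ)) := by
  rcases Nat.eq_zero_or_pos n with rfl | hn
  · refine ⟨0, measurable_zero, ?_, by simp⟩
    intro p
    have : Nerve u p = ∅ := by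
      ext T
      simp only [Nerve, mem_ofPred_eq, mem_empty_iff_false, iff_false]
      rintro ⟨⟨i, _⟩, _⟩
      exact i.elim0
    rw [this]
    simp
  have hm : ∀ i, Measurable (f i) := fun i => (hK i).continuous.measurable
  have : ∀ i, IsProbabilityMeasure ((volume : Measure E).withDensity (fun x => (f i x : ℝ≥0∞))) :=
    fun i => main_prob (h1 i)
  have hn1 : (1 : ℝ) ≤ n := by exact_mod_cast hn
  have hK1 : (1 : ℝ) ≤ 1000 * K := density_K (hK ⟨0, hn⟩) (h0 ⟨0, hn⟩) (h1 ⟨0, hn⟩)
  set M : ℝ := 1000 * K * n with hM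
  have hM1 : 1 ≤ M := by
    have := mul_le_mul hK1 hn1 (by norm_num) (by linarith)
    simpa using! this
  have hM0 : 0 < M := by linarith
  set δ : ℝ := M ^ (-(1 / 2) : ℝ) with hδd
  have hδ : 0 < δ := Real.rpow_pos_of_pos hM0 _
  have hδ1 : δ ≤ 1 := Real.rpow_le_one_of_one_le_of_nonpos hM1 (by norm_num)
  have hδ2 : δ ^ 2 = M⁻¹ := by
    rw [hδd, ← Real.rpow_natCast, ← Real.rpow_mul hM0.le, ← Real.rpow_neg_one]
    norm_num
  have hδ3 : 64 / δ ^ 3 = 64 * M ^ (3 / 2 : ℝ) := by
    rw [hδd, ← Real.rpow_natCast, ← Real.rpow_mul hM0.le, div_eq_mul_inv, ← Real.rpow_neg hM0.le]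
    norm_num
  have hδK : 1000 * K * δ ^ 2 = 1 / n := by
    rw [hδ2, hM]
    have hKn : (K : ℝ) ≠ 0 := by
      intro h
      rw [h] at hK1
      norm_num at hK1
    have hnn : (n : ℝ) ≠ 0 := by positivity
    field_simp
  obtain ⟨G, hG2, hGx, hGc⟩ := exists_grid hδ hδ1
  refine ⟨fun p => ∑ g ∈ G, ∑' j : ℕ, ∑ i0, ∏ i, wt δ j (i = i0) (dl (u i) (g - p i)), ?_,
    fun p => nerve_le hu hδ G hGx p, ?_⟩
  · refine Finset.measurable_sum _ fun g _ => ?_
    refine Measurable.tsum fun j => ?_
    refine Finset.measurable_sum _ fun i0 _ => ?_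
    refine Finset.measurable_prod _ fun i _ => ?_
    exact (wt_measurable (hu i) δ j (i = i0) g).comp (measurable_pi_apply i)
  · have pm : ∀ g j i0, Measurable (fun p : Fin n → E => ∏ i, wt δ j (i = i0) (dl (u i) (g - p i))) := by
      intro g j i0
      refine Finset.measurable_prod _ fun i _ => ?_
      exact (wt_measurable (hu i) δ j (i = i0) g).comp (measurable_pi_apply i)
    rw [lintegral_finsetSum _ (fun g _ => Measurable.tsum fun j =>
      Finset.measurable_sum _ fun i0 _ => pm g j i0)]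
    have each : ∀ g ∈ G, ∫⁻ p, ∑' j : ℕ, ∑ i0, ∏ i, wt δ j (i = i0) (dl (u i) (g - p i))
        ∂(Measure.pi fun i => volume.withDensity (fun x => (f i x : ℝ≥0∞))) ≤
        ENNReal.ofReal (8 * Real.exp 56) := by
      intro g hg
      rw [lintegral_tsum (fun j => (Finset.measurable_sum _ fun i0 _ => pm g j i0).aemeasurable)]
      have hk : ∀ i, LipschitzWith K (fun w => f i (g - w)) := by
        intro i
        have : LipschitzWith (K * 1) (fun w => f i (g - w)) := (hK i).comp (by
          refine LipschitzWith.of_dist_le_mul fun a b => ?_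
          rw [dist_sub_left]
          simp)
        simpa using! this
      have hz : ∀ i w, 3 < ‖w‖ → f i (g - w) = 0 := by
        intro i w hw
        apply h0
        have a1 : ‖w‖ ≤ ‖g‖ + ‖g - w‖ := by
          have := norm_sub_le g (g - w)
          simpa using! this
        have a2 := hG2 g hg
        linarith
      have ho : ∀ i, ∫⁻ w, (f i (g - w) : ℝ≥0∞) = 1 := by
        intro i
        rw [lintegral_sub_left_eq_self (fun w => (f i w : ℝ≥0∞)) g]
        exact h1 i
      refine le_trans (le_of_eq ?_) (per_point hn hu hk hz ho hδ hδK)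
      refine tsum_congr fun j => ?_
      rw [lintegral_finsetSum _ (fun i0 _ => pm g j i0)]
      refine Finset.sum_congr rfl fun i0 _ => ?_
      rw [lintegral_pi_prod (fun i => volume.withDensity (fun x => (f i x : ℝ≥0∞)))
        (fun i x => wt δ j (i = i0) (dl (u i) (g - x)))
        (fun i => wt_measurable (hu i) δ j (i = i0) g)]
      refine Finset.prod_congr rfl fun i _ => ?_
      have hw : Measurable (fun w : E => wt δ j (i = i0) (dl (u i) w)) := by
        have := wt_measurable (hu i) δ j (i = i0) 0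
        have e : ∀ x : E, dl (u i) (0 - x) = dl (u i) x := by
          intro x
          rw [zero_sub]
          exact (dl_basic (hu i)).2.2.2.2.1 x
        simpa only [e] using! this
      exact lintegral_shift (hm i) g (fun w => wt δ j (i = i0) (dl (u i) w)) hw
    refine (Finset.sum_le_sum each).trans ?_
    rw [Finset.sum_const, nsmul_eq_mul, ← ENNReal.ofReal_natCast,
      ← ENNReal.ofReal_mul (Nat.cast_nonneg _)]
    apply ENNReal.ofReal_le_ofReal
    rw [hδ3] at hGc
    have h8 : (0 : ℝ) ≤ 8 * Real.exp 56 := by positivity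
    calc (G.card : ℝ) * (8 * Real.exp 56) ≤ (64 * M ^ (3 / 2 : ℝ)) * (8 * Real.exp 56) :=
          mul_le_mul_of_nonneg_right hGc h8
      _ = 64 * (8 * Real.exp 56) * M ^ (3 / 2 : ℝ) := by ring
-- END main

end Pool.Agent.Vor
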