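import Pool.Agent.Vor.Geo

set_option autoImplicit false

namespace Pool.Agent.Vor

open MeasureTheory Set
open scoped ENNReal NNReal

-- BEGIN rtr
/-- The trivial bound for the mass of a ring. -/
theorem ring_trivial {u : E} (hu : ‖u‖ = 1) {K : ℝ≥0} {h : E → ℝ≥0} (hK : LipschitzWith K h)
    (h0 : ∀ w, 3 < ‖w‖ → h w = 0) {a b : ℝ} (ha : 0 ≤ a) (hab : a ≤ b) :
    ∫⁻ w in ring u a b, h w ≤ ENNReal.ofReal (4 * K * (6 * Real.pi * (b ^ 2 - a ^ 2))) := by
  have hm := measurableSet_ring hu a b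
  have hmB : MeasurableSet {w : E | ‖w‖ ≤ 3 ∧ w ∈ ring u a b} :=
    (measurableSet_le measurable_norm measurable_const).inter hm
  have h1 : ∫⁻ w in ring u a b, (h w : ℝ≥0∞) ≤
      ∫⁻ w in {w : E | ‖w‖ ≤ 3 ∧ w ∈ ring u a b}, ((4 * K : ℝ≥0) : ℝ≥0∞) := by
    rw [← lintegral_indicator hm, ← lintegral_indicator hmB]
    refine lintegral_mono fun w => ?_
    by_cases hw : w ∈ ring u a b
    · by_cases h3 : ‖w‖ ≤ 3
      · rw [indicator_of_mem hw, indicator_of_mem (show w ∈ {w : E | ‖w‖ ≤ 3 ∧ w ∈ ring u a b}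
          from ⟨h3, hw⟩)]
        exact ENNReal.coe_le_coe.2 (density_bound hK h0 w)
      · rw [indicator_of_mem hw, h0 w (not_le.1 h3)]
        simp
    · rw [indicator_of_notMem hw]
      exact zero_le
  refine h1.trans ?_
  rw [setLIntegral_const]
  have h2 : (((4 * K : ℝ≥0) : ℝ≥0∞)) = ENNReal.ofReal (4 * K) := by
    rw [ENNReal.ofReal, Real.toNNReal_of_nonneg (by positivity)]
    congr 1
  rw [h2, ENNReal.ofReal_mul (p := 4 * (K : ℝ)) (by positivity)]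
  exact mul_le_mul' le_rfl (volume_ring_le hu ha hab)
-- END rtr

-- BEGIN rsc
/-- Let `P = ∫_ring h`, `V = 6π(b²-a²)`. For all `w`: `h w ≤ h (t w) + 3K(1-t)` if `‖w‖ ≤ 3` (Lipschitz) and `h w = 0` if `‖w‖ > 3`; so `P ≤ ∫_ring h (t w) + 3K(1-t)V` (row vol), and by row scl `t³P ≤ ∫_(ring ta tb) h + 3K(1-t)V`; finally `P = t³P + (1-t³)P`, `1 - t³ ≤ 3(1-t)`, `P ≤ 4KV` (row rtr): total `(1-t)(12K+3K)V`. -/
theorem ring_scale {u : E} (hu : ‖u‖ = 1) {K : ℝ≥0} {h : E → ℝ≥0} (hK : LipschitzWith K h)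
    (h0 : ∀ w, 3 < ‖w‖ → h w = 0) {a b t : ℝ} (ha : 0 ≤ a) (hab : a ≤ b) (ht : 0 < t) (ht1 : t ≤ 1) :
    ∫⁻ w in ring u a b, h w ≤ (∫⁻ w in ring u (t * a) (t * b), h w) +
      ENNReal.ofReal ((1 - t) * (15 * K) * (6 * Real.pi * (b ^ 2 - a ^ 2))) := by
  have hm : Measurable h := hK.continuous.measurable
  have hV0 : 0 ≤ 6 * Real.pi * (b ^ 2 - a ^ 2) := by
    have h1 : a ^ 2 ≤ b ^ 2 := pow_le_pow_left₀ ha hab 2
    have h2 := Real.pi_pos
    exact mul_nonneg (by positivity) (by linarith)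
  have htriv := ring_trivial hu hK h0 ha hab
  have hvol := volume_ring_le hu ha hab
  have hscl := lintegral_ring_smul hu ht a b h hm
  have ht' : 0 ≤ 1 - t := by linarith
  have hK0 : (0 : ℝ) ≤ K := K.2
  generalize 6 * Real.pi * (b ^ 2 - a ^ 2) = V at hV0 htriv hvol ⊢
  set P : ℝ≥0∞ := ∫⁻ w in ring u a b, (h w : ℝ≥0∞) with hP
  set Q : ℝ≥0∞ := ∫⁻ w in ring u a b, (h (t • w) : ℝ≥0∞) with hQ
  have h1 : P ≤ Q + ENNReal.ofReal (3 * K * (1 - t)) * ENNReal.ofReal V := by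
    have h2 : P ≤ ∫⁻ w in ring u a b, ((h (t • w) : ℝ≥0∞) +
        ({w : E | ‖w‖ ≤ 3 ∧ w ∈ ring u a b}).indicator
          (fun _ => ENNReal.ofReal (3 * K * (1 - t))) w) := by
      refine setLIntegral_mono' (measurableSet_ring hu a b) fun w hw => ?_
      by_cases h3 : ‖w‖ ≤ 3
      · rw [indicator_of_mem (show w ∈ {w : E | ‖w‖ ≤ 3 ∧ w ∈ ring u a b} from ⟨h3, hw⟩)]
        have h4 : (h w : ℝ) ≤ h (t • w) + 3 * K * (1 - t) := by
          have h5 := hK.dist_le_mul w (t • w)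
          have h6 : dist w (t • w) ≤ 3 * (1 - t) := by
            have h7 : w - t • w = (1 - t) • w := by rw [sub_smul, one_smul]
            rw [dist_eq_norm, h7, norm_smul, Real.norm_of_nonneg ht', mul_comm]
            exact mul_le_mul_of_nonneg_right h3 ht'
          rw [NNReal.dist_eq] at h5
          have h7 := (abs_le.1 h5).2
          have h8 := mul_le_mul_of_nonneg_left h6 hK0
          linarith
        have h5 : ((h w : ℝ≥0) : ℝ≥0∞) = ENNReal.ofReal (h w : ℝ) :=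
          (ENNReal.ofReal_coe_nnreal).symm
        have h6 : ((h (t • w) : ℝ≥0) : ℝ≥0∞) = ENNReal.ofReal (h (t • w) : ℝ) :=
          (ENNReal.ofReal_coe_nnreal).symm
        rw [h5, h6, ← ENNReal.ofReal_add (NNReal.coe_nonneg _)
          (show 0 ≤ 3 * (K : ℝ) * (1 - t) by positivity)]
        exact ENNReal.ofReal_le_ofReal h4
      · rw [h0 w (not_le.1 h3)]
        exact zero_le
    refine h2.trans ?_
    rw [lintegral_add_left (by fun_prop)]
    refine add_le_add le_rfl ?_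
    refine (lintegral_indicator_const_le _ _).trans ?_
    refine mul_le_mul_of_nonneg_left ?_ zero_le
    exact (Measure.restrict_apply_le _ _).trans hvol
  have h2 : ENNReal.ofReal (t ^ 3) * P ≤ (∫⁻ w in ring u (t * a) (t * b), (h w : ℝ≥0∞)) +
      ENNReal.ofReal (3 * K * (1 - t)) * ENNReal.ofReal V := by
    rw [hscl]
    calc ENNReal.ofReal (t ^ 3) * P
        ≤ ENNReal.ofReal (t ^ 3) * (Q + ENNReal.ofReal (3 * K * (1 - t)) * ENNReal.ofReal V) :=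
          mul_le_mul_of_nonneg_left h1 zero_le
      _ = ENNReal.ofReal (t ^ 3) * Q +
          ENNReal.ofReal (t ^ 3) * (ENNReal.ofReal (3 * K * (1 - t)) * ENNReal.ofReal V) := mul_add _ _ _
      _ ≤ ENNReal.ofReal (t ^ 3) * Q +
          1 * (ENNReal.ofReal (3 * K * (1 - t)) * ENNReal.ofReal V) := by
          refine add_le_add le_rfl (mul_le_mul_of_nonneg_right ?_ zero_le)
          rw [← ENNReal.ofReal_one]
          exact ENNReal.ofReal_le_ofReal (pow_le_one₀ ht.le ht1)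
      _ = _ := by rw [one_mul]
  have ht3 : t ^ 3 ≤ 1 := pow_le_one₀ ht.le ht1
  have h3 : P = ENNReal.ofReal (t ^ 3) * P + ENNReal.ofReal (1 - t ^ 3) * P := by
    rw [← add_mul, ← ENNReal.ofReal_add (by positivity) (by linarith)]
    rw [show t ^ 3 + (1 - t ^ 3) = 1 by ring, ENNReal.ofReal_one, one_mul]
  have h4 : ENNReal.ofReal (1 - t ^ 3) * P ≤
      ENNReal.ofReal (3 * (1 - t)) * ENNReal.ofReal (4 * K * V) := by
    refine mul_le_mul' (ENNReal.ofReal_le_ofReal ?_) htriv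
    have h5 : 0 ≤ (1 - t) * ((1 - t) * (t + 2)) := by positivity
    nlinarith
  have h5 : ENNReal.ofReal ((1 - t) * (15 * K) * V) =
      ENNReal.ofReal (3 * K * (1 - t)) * ENNReal.ofReal V +
        ENNReal.ofReal (3 * (1 - t)) * ENNReal.ofReal (4 * K * V) := by
    rw [← ENNReal.ofReal_mul (by positivity), ← ENNReal.ofReal_mul (by positivity),
      ← ENNReal.ofReal_add (by positivity) (by positivity)]
    congr 1
    ring
  calc P = ENNReal.ofReal (t ^ 3) * P + ENNReal.ofReal (1 - t ^ 3) * P := h3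
    _ ≤ ((∫⁻ w in ring u (t * a) (t * b), (h w : ℝ≥0∞)) +
        ENNReal.ofReal (3 * K * (1 - t)) * ENNReal.ofReal V) +
        ENNReal.ofReal (3 * (1 - t)) * ENNReal.ofReal (4 * K * V) := add_le_add h2 h4
    _ = _ := by rw [h5, add_assoc]
-- END rsc

-- BEGIN rst
/-- `j = 0`: row rtr, `4K·6π·3δ² ≤ 1000Kδ²`. `j ≥ 1`: row rsc with `a = (j+1)δ`, `b = (j+2)δ`, `t = j/(j+1)`: `ta = jδ`, `tb = j(j+2)δ/(j+1) ≤ (j+1)δ` (monotone in the set), `(1-t)(b²-a²) = (2j+3)δ²/(j+1) ≤ 3δ²`, `15·6π·3 ≤ 1000` (`Real.pi_lt_d2`). -/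
theorem rg_step {u : E} (hu : ‖u‖ = 1) {K : ℝ≥0} {h : E → ℝ≥0} (hK : LipschitzWith K h)
    (h0 : ∀ w, 3 < ‖w‖ → h w = 0) {δ : ℝ} (hδ : 0 < δ) (j : ℕ) :
    rg u h δ (j + 1) ≤ rg u h δ j + ENNReal.ofReal (1000 * K * δ ^ 2) := by
  have hpi : Real.pi < 3.15 := Real.pi_lt_d2
  have hpi0 : 0 < Real.pi := Real.pi_pos
  have hK0 : (0 : ℝ) ≤ K := K.2
  have hKd : 0 ≤ (K : ℝ) * δ ^ 2 := mul_nonneg hK0 (sq_nonneg δ)
  unfold rg
  rcases Nat.eq_zero_or_pos j with rfl | hj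
  · refine le_add_left ((ring_trivial hu hK h0 (by positivity) (by push_cast; nlinarith)).trans
      (ENNReal.ofReal_le_ofReal ?_))
    have h1 : 4 * (K : ℝ) * (6 * Real.pi * ((((0 + 1 : ℕ) : ℝ) + 1) * δ) ^ 2 -
        6 * Real.pi * (((0 + 1 : ℕ) : ℝ) * δ) ^ 2) = 72 * Real.pi * (K * δ ^ 2) := by
      push_cast
      ring
    rw [← mul_sub] at h1
    rw [h1]
    nlinarith
  · have hj0 : (0 : ℝ) < j := Nat.cast_pos.2 hj
    have hj1 : (1 : ℝ) ≤ j := Nat.one_le_cast.2 hj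
    have hjn : (0 : ℝ) < (j : ℝ) + 1 := by linarith
    have ht0 : 0 < (j : ℝ) / (j + 1) := div_pos hj0 hjn
    have ht1 : (j : ℝ) / (j + 1) ≤ 1 := (div_le_one hjn).2 (by linarith)
    have hsc := ring_scale hu hK h0 (a := ((j + 1 : ℕ) : ℝ) * δ) (b := (((j + 1 : ℕ) : ℝ) + 1) * δ)
      (t := (j : ℝ) / (j + 1)) (by positivity)
      (mul_le_mul_of_nonneg_right (by linarith) hδ.le) ht0 ht1
    refine hsc.trans (add_le_add (lintegral_mono_set ?_) (ENNReal.ofReal_le_ofReal ?_))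
    · rintro w ⟨hw1, hw2⟩
      refine ⟨?_, lt_of_lt_of_le hw2 ?_⟩
      · have e1 : (j : ℝ) / (j + 1) * (((j + 1 : ℕ) : ℝ) * δ) = j * δ := by
          push_cast
          field_simp
        rwa [e1] at hw1
      · have e2 : (j : ℝ) / (j + 1) * ((((j + 1 : ℕ) : ℝ) + 1) * δ) =
            (j * (j + 2)) / (j + 1) * δ := by
          push_cast
          ring
        rw [e2]
        refine mul_le_mul_of_nonneg_right ?_ hδ.le
        rw [div_le_iff₀ hjn]
        nlinarith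
    · have e3 : (1 - (j : ℝ) / (j + 1)) * (15 * K) * (6 * Real.pi *
          ((((((j + 1 : ℕ) : ℝ) + 1) * δ) ^ 2 - (((j + 1 : ℕ) : ℝ) * δ) ^ 2))) =
          90 * Real.pi * ((2 * j + 3) / (j + 1)) * (K * δ ^ 2) := by
        push_cast
        field_simp
        ring
      rw [e3]
      have h3 : (2 * (j : ℝ) + 3) / (j + 1) ≤ 3 := by
        rw [div_le_iff₀ hjn]
        linarith
      have h4 : 90 * Real.pi * ((2 * (j : ℝ) + 3) / (j + 1)) ≤ 1000 := by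
        have h5 : 90 * Real.pi * ((2 * (j : ℝ) + 3) / (j + 1)) ≤ 90 * Real.pi * 3 :=
          mul_le_mul_of_nonneg_left h3 (by positivity)
        linarith
      calc 90 * Real.pi * ((2 * (j : ℝ) + 3) / (j + 1)) * (K * δ ^ 2) ≤ 1000 * (K * δ ^ 2) :=
            mul_le_mul_of_nonneg_right h4 hKd
        _ = 1000 * K * δ ^ 2 := by ring
-- END rst

-- BEGIN rze
/-- Row rtr with `a = 0`, `b = δ`. -/
theorem rg_zero {u : E} (hu : ‖u‖ = 1) {K : ℝ≥0} {h : E → ℝ≥0} (hK : LipschitzWith K h)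
    (h0 : ∀ w, 3 < ‖w‖ → h w = 0) {δ : ℝ} (hδ : 0 < δ) :
    rg u h δ 0 ≤ ENNReal.ofReal (1000 * K * δ ^ 2) := by
  have hpi : Real.pi < 3.15 := Real.pi_lt_d2
  have hKd : 0 ≤ (K : ℝ) * δ ^ 2 := mul_nonneg K.2 (sq_nonneg δ)
  unfold rg
  refine (ring_trivial hu hK h0 (by simp) (by simp [hδ.le])).trans (ENNReal.ofReal_le_ofReal ?_)
  have h1 : 4 * (K : ℝ) * (6 * Real.pi * (((((0 : ℕ) : ℝ) + 1) * δ) ^ 2 - (((0 : ℕ) : ℝ) * δ) ^ 2)) =
      24 * Real.pi * (K * δ ^ 2) := by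
    push_cast
    ring
  rw [h1]
  nlinarith
-- END rze

-- BEGIN rsu
/-- Induction on `k`: `ring u (jδ) ((k+1)δ)` is the disjoint union of `ring u (jδ) (kδ)` and `ring u (kδ) ((k+1)δ)`, `lintegral_union`, `Finset.sum_Ico_succ_top`. -/
theorem rg_sum {u : E} (hu : ‖u‖ = 1) {h : E → ℝ≥0} (hm : Measurable h) {δ : ℝ} (hδ : 0 < δ)
    (j k : ℕ) (hjk : j ≤ k) :
    ∫⁻ w in ring u (j * δ) (k * δ), h w = ∑ l ∈ Finset.Ico j k, rg u h δ l := by
  induction k, hjk using Nat.le_induction with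
  | base =>
    have h1 : ring u (j * δ) (j * δ) = ∅ := by
      refine Set.eq_empty_of_forall_notMem ?_
      rintro w ⟨h1, h2⟩
      exact absurd h2 (not_lt.2 h1)
    rw [h1, Finset.Ico_self, Finset.sum_empty, setLIntegral_empty]
  | succ k hjk ih =>
    rw [Finset.sum_Ico_succ_top hjk, ← ih]
    have h1 : ring u (j * δ) ((k + 1 : ℕ) * δ) = ring u (j * δ) (k * δ) ∪ ring u (k * δ) ((k + 1) * δ) := by
      ext w
      rw [Nat.cast_add, Nat.cast_one]
      have h2 : (j : ℝ) * δ ≤ k * δ := mul_le_mul_of_nonneg_right (Nat.cast_le.2 hjk) hδ.le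
      have h3 : (k : ℝ) * δ ≤ (k + 1) * δ := mul_le_mul_of_nonneg_right (by linarith) hδ.le
      constructor
      · rintro ⟨h4, h5⟩
        rcases lt_or_ge (dl u w) (k * δ) with h6 | h6
        · exact Or.inl ⟨h4, h6⟩
        · exact Or.inr ⟨h6, h5⟩
      · rintro (⟨h4, h5⟩ | ⟨h4, h5⟩)
        · exact ⟨h4, lt_of_lt_of_le h5 h3⟩
        · exact ⟨h2.trans h4, h5⟩
    have h2 : Disjoint (ring u (j * δ) (k * δ)) (ring u (k * δ) ((k + 1) * δ)) := by
      rw [Set.disjoint_left]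
      rintro w ⟨_, h4⟩ ⟨h5, _⟩
      exact absurd h4 (not_lt.2 h5)
    rw [h1, lintegral_union (measurableSet_ring hu _ _) h2]
    rfl
-- END rsu

-- BEGIN fsm
/-- `∑_{k<j} rg k = ∫_(ring 0 (jδ)) h ≤ ∫ h = 1` (row rsu with `j = 0`, `setLIntegral_le_lintegral`), then `ENNReal.toReal_sum`. -/
theorem rg_total {u : E} (hu : ‖u‖ = 1) {h : E → ℝ≥0} (hm : Measurable h) (h1 : ∫⁻ w, h w = 1)
    {δ : ℝ} (hδ : 0 < δ) (j : ℕ) :
    (∑ k ∈ Finset.range j, (rg u h δ k).toReal ≤ 1) ∧ ∀ k, rg u h δ k ≠ ⊤ := by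
  have hfin : ∀ k, rg u h δ k ≠ ⊤ := by
    intro k
    have h2 : rg u h δ k ≤ 1 := by
      rw [← h1]
      exact setLIntegral_le_lintegral _ _
    exact ne_top_of_le_ne_top ENNReal.one_ne_top h2
  refine ⟨?_, hfin⟩
  rw [← ENNReal.toReal_sum (fun k _ => hfin k), Finset.range_eq_Ico,
    ← rg_sum hu hm hδ 0 j (Nat.zero_le j)]
  have h3 : ∫⁻ w in ring u ((0 : ℕ) * δ) (j * δ), (h w : ℝ≥0∞) ≤ 1 := by
    rw [← h1]
    exact setLIntegral_le_lintegral _ _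
  have h4 := ENNReal.toReal_mono ENNReal.one_ne_top h3
  rwa [ENNReal.toReal_one] at h4
-- END fsm

end Pool.Agent.Vor
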